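import Pool.Agent.Q145.LZ.Su
import Pool.Agent.Q145.LT.All
import Pool.Agent.Q58.LZ.JG
import Pool.Agent.Q121.LZ.CM
import Pool.Agent.Q68.LZ.TR
import Pool.Agent.Q143.LZ.EX

/-!
# Project LZ: the theorems without hypotheses
-/

set_option autoImplicit false

namespace Pool.Agent.Q145.LZ

open Finset Filter

/-- the three parts above the threshold -/
theorem mainZ' {θ : ℝ} (hθ0 : 0 < θ) (hθ1 : θ ≤ 1) : ∃ C₁ : ℝ, 0 < C₁ ∧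
    (∀ A ε : ℝ, 0 < ε → ∀ᶠ X : ℕ in atTop, ∀ Q : ℕ, (Q : ℝ) ≤ A * Real.log (Real.log X) → PZX θ C₁ X Q ε) ∧
    (∃ c : ℝ, 0 < c ∧ ∀ ε : ℝ, 0 < ε → ∃ᶠ X : ℕ in atTop, ∀ Q : ℕ, (Q : ℝ) ≤ c * (Real.log X / Real.log (Real.log X)) → PZX θ C₁ X Q ε) ∧
    (∃ c C : ℝ, 0 < c ∧ 0 < C ∧ ∀ ε : ℝ, 0 < ε → ∀ᶠ X : ℕ in atTop,
      (∀ (r : ℕ) [NeZero r], 1 < r → (r : ℝ) ≤ Real.exp (Real.log X / Real.log (Real.log X)) → ∀ χ : DirichletCharacter ℂ r, χ.IsPrimitive → χ ^ 2 = 1 →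
        ∀ β : ℝ, χ.LFunction β = 0 → β ≤ 1 - C * (Real.log (Real.log X) / Real.log X)) →
      ∀ Q : ℕ, (Q : ℝ) ≤ c * (Real.log X / Real.log (Real.log X)) → PZX θ C₁ X Q ε) :=
  mainZ Pool.Agent.Q58.LZ.jgz Pool.Agent.Q143.LZ.exz Pool.Agent.Q121.LZ.cmz Pool.Agent.Q68.LZ.trz hθ0 hθ1

/-- below the threshold -/
theorem lowZ' : ∀ θ ε : ℝ, 0 < θ → 0 < ε → ∀ᶠ X : ℕ in atTop, PZZ θ X ε := lowZ Pool.Agent.Q68.LZ.trz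

end Pool.Agent.Q145.LZ
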