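import Pool.Agent.Q145.LZ.Wc

/-!
# Project LZ: below the threshold (adapted from `Pool/Agent/Q145/LX/Lo2.lean`)
-/

set_option autoImplicit false
set_option linter.all false

namespace Pool.Agent.Q145.LZ

open Finset Filter
open Pool.Agent.Q145.SZ Pool.Agent.Q145.LQ Pool.Agent.Q145.LE Pool.Agent.Q145.LT Pool.Agent.Q145.LX

open Classical in
/-- the core: below the threshold -/
theorem low_coreZ (trz : S_TRZ) {C : ℝ} {X₀ : ℕ} (hC : 0 < C) (hmean : ∀ (z Y X A B K : ℕ) (H : Fin K → ℕ) (q : Fin K → Polynomial ℤ), X₀ ≤ X → 3 ≤ X → PW z ^ 2 ≤ X → 2 * PW z ≤ X → SysZ z Y X A B H q →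
    ∀ b : Fin K → ZMod (PW z), ∑ s ∈ SbQ H b, (cntQ Y q s : ℝ) ≤ (Y : ℝ) * (C * vv (PW z) / Real.log X) ^ K * (SbQ H b).card)
    {Cv : ℝ} (hCv : 0 < Cv) (hvv : ∀ z : ℕ, 2 ≤ z → vv (PW z) ≤ Cv * Real.log z ∧ C18 (PW z) ≤ Cv * Real.log z ^ 18)
    {θ ε : ℝ} (hθ : 0 < θ) (hε : 0 < ε) {z Y X A B K : ℕ} {H : Fin K → ℕ} {q : Fin K → Polynomial ℤ} (hX₀ : X₀ ≤ X)
    (hL : 64 ≤ Real.log X) (hz2 : 2 ≤ z) (hzL : 64 * (z : ℝ) ≤ Real.log X) (hK1 : 1 ≤ K) (hKz : 64 * (K + 1) ≤ z) (hY1 : 1 ≤ Y)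
    (hl0 : 0 < Real.log (Real.log X))
    (hY : Real.log Y ≤ (1 - θ) * (K * Real.log (Real.log X)))
    (hl1 : C * (Cv * Real.log (Real.log X)) ≤ Real.exp (θ / 2 * Real.log (Real.log X)))
    (hl2 : Real.exp (-(θ / 2 * Real.log (Real.log X))) ≤ ε / 4)
    (hS : SysZ z Y X A B H q) (hG : GA z K A ≤ 1 / 8) :
    (((ATQ H q).filter fun s => cntQ Y q s ≠ 0).card : ℝ) ≤ ε * (ATQ H q).card := by
  set L := Real.log X with hLdef
  set l := Real.log L with hldef
  have hL0 : 0 < L := by linarith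
  have hX0 : (0 : ℝ) < X := by
    rcases Nat.eq_zero_or_pos X with h | h
    · rw [h] at hLdef
      simp at hLdef
      linarith
    · exact_mod_cast h
  have hXe : (X : ℝ) = Real.exp L := (Real.exp_log hX0).symm
  have hLe : L = Real.exp l := (Real.exp_log hL0).symm
  have hXL : L + 1 ≤ X := by
    rw [hXe]
    exact Real.add_one_le_exp L
  have hX3 : 3 ≤ X := by
    have : (3 : ℝ) ≤ X := by linarith
    exact_mod_cast this
  have hz0 : (0 : ℝ) < z := by exact_mod_cast (show 0 < z by omega)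
  have hWe : (PW z : ℝ) ≤ Real.exp (2 * z) := PW_le Pool.Agent.Q111.SZ.t_PWB z
  have hW0 : (0 : ℝ) < PW z := by exact_mod_cast PW_pos z
  have hW2X : PW z ^ 2 ≤ X := by
    have : (PW z : ℝ) ^ 2 ≤ X := by
      calc (PW z : ℝ) ^ 2 ≤ (Real.exp (2 * z)) ^ 2 := by gcongr
        _ = Real.exp (4 * z) := by rw [← Real.exp_nat_mul]; ring_nf
        _ ≤ Real.exp L := Real.exp_le_exp.2 (by linarith)
        _ = X := hXe.symm
    exact_mod_cast this
  have hz1 : (1 : ℝ) ≤ z := by exact_mod_cast (show 1 ≤ z by omega)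
  have hKr : (64 : ℝ) * (K + 1) ≤ z := by exact_mod_cast hKz
  have hK0 : (0 : ℝ) ≤ K := Nat.cast_nonneg _
  have hKWz : 16 * ((K : ℝ) + 1) * PW z ≤ Real.exp (3 * z) := by
    have h1 : 16 * ((K : ℝ) + 1) ≤ Real.exp z := by
      have := Real.add_one_le_exp (z : ℝ)
      linarith
    calc 16 * ((K : ℝ) + 1) * PW z ≤ Real.exp z * Real.exp (2 * z) := by gcongr
      _ = Real.exp (3 * z) := by rw [← Real.exp_add]; ring_nf
  have h8X : 8 * (K + 1) * PW z ≤ X := by
    have : 8 * ((K : ℝ) + 1) * PW z ≤ X := by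
      have h1 : 8 * ((K : ℝ) + 1) * PW z ≤ 16 * ((K : ℝ) + 1) * PW z := by
        have : 0 ≤ ((K : ℝ) + 1) * PW z := by positivity
        nlinarith
      calc _ ≤ Real.exp (3 * z) := h1.trans hKWz
        _ ≤ Real.exp L := Real.exp_le_exp.2 (by linarith)
        _ = X := hXe.symm
    exact_mod_cast this
  have h2WX : 2 * PW z ≤ X := (Nat.mul_le_mul_right _ (by omega : 2 ≤ 8 * (K + 1))).trans h8X
  have hω := hS.omega_le (by linarith) (by linarith) hKz hY1
  -- the mean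
  have hvz : vv (PW z) ≤ Cv * l := by
    refine (hvv z hz2).1.trans ?_
    apply mul_le_mul_of_nonneg_left _ hCv.le
    rw [hldef]
    exact Real.log_le_log hz0 (by linarith)
  have hvv0 := (vv_pos z).le
  have hY0 : (0 : ℝ) < Y := by exact_mod_cast hY1
  have hη : (Y : ℝ) * (C * vv (PW z) / L) ^ K ≤ ε / 4 := by
    have e1 : C * vv (PW z) / L ≤ Real.exp (θ / 2 * l) * Real.exp (-l) := by
      rw [div_le_iff₀ hL0]
      have : Real.exp (-l) * L = 1 := by
        rw [Real.exp_neg, hldef, Real.exp_log hL0, inv_mul_cancel₀ hL0.ne']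
      calc C * vv (PW z) ≤ C * (Cv * l) := by gcongr
        _ ≤ Real.exp (θ / 2 * l) := hl1
        _ = Real.exp (θ / 2 * l) * (Real.exp (-l) * L) := by rw [this, mul_one]
        _ = _ := by rw [mul_assoc]
    have e2 : (Y : ℝ) ≤ (Real.exp ((1 - θ) * l)) ^ K := by
      rw [← Real.exp_nat_mul, ← Real.exp_log hY0]
      apply Real.exp_le_exp.2
      refine hY.trans (le_of_eq ?_)
      ring
    have e3 : 0 ≤ C * vv (PW z) / L := by positivity
    calc (Y : ℝ) * (C * vv (PW z) / L) ^ K ≤ (Real.exp ((1 - θ) * l)) ^ K * (Real.exp (θ / 2 * l) * Real.exp (-l)) ^ K := by gcongr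
      _ = (Real.exp (-(θ / 2 * l))) ^ K := by
        rw [← mul_pow, ← Real.exp_add, ← Real.exp_add]
        congr 2
        ring
      _ ≤ (Real.exp (-(θ / 2 * l))) ^ 1 := by
        apply pow_le_pow_of_le_one (Real.exp_pos _).le _ hK1
        apply Real.exp_le_one_iff.2
        have : 0 ≤ θ / 2 * l := by positivity
        linarith
      _ = Real.exp (-(θ / 2 * l)) := pow_one _
      _ ≤ _ := hl2
  obtain ⟨E, hE⟩ : ∃ E : (Fin K → ℕ) → Prop, ∀ s, E s ↔ cntQ Y q s ≠ 0 := ⟨_, fun _ => Iff.rfl⟩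
  have hcl : ∀ b : Fin K → ZMod (PW z), (((SbQ H b).filter fun s => E s).card : ℝ) ≤ ε / 4 * (SbQ H b).card := by
    intro b
    have h1 : (((SbQ H b).filter fun s => E s).card : ℝ) ≤ ∑ s ∈ SbQ H b, (cntQ Y q s : ℝ) := by
      rw [card_eq_sum_ones, Nat.cast_sum, sum_filter]
      refine sum_le_sum fun s _ => ?_
      split_ifs with h
      · have : 1 ≤ cntQ Y q s := Nat.one_le_iff_ne_zero.2 ((hE s).1 h)
        exact_mod_cast this
      · exact Nat.cast_nonneg _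
    refine h1.trans ((hmean z Y X A B K H q hX₀ hX3 hW2X h2WX hS b).trans ?_)
    exact mul_le_mul_of_nonneg_right hη (Nat.cast_nonneg _)
  have ht := trz z Y X K A B H q E (ε / 4) (by omega) hS h8X hω hG (by
    calc _ ≤ ∑ _b ∈ AdQ (PW z) q, ε / 4 := by
          apply sum_le_sum
          intro b _
          exact div_le_of_le_mul₀ (Nat.cast_nonneg _) (by positivity) (hcl b)
      _ = ε / 4 * (AdQ (PW z) q).card := by rw [sum_const, nsmul_eq_mul]; ring)
  have e : (ATQ H q).filter (fun s => cntQ Y q s ≠ 0) = (ATQ H q).filter fun s => E s := filter_congr fun s _ => (hE s).symm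
  rw [e]
  refine ht.trans (le_of_eq ?_)
  ring

end Pool.Agent.Q145.LZ
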