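import Pool.Agent.Q145.LZ.Hs
import Pool.Agent.Q145.LQ.All
import Pool.Agent.Q53.LQ.CHT

/-!
# Project LZ: the full series of most systems, by comparison with `x ^ 2 + c`
-/

set_option autoImplicit false

namespace Pool.Agent.Q145.LZ

open Finset Filter
open Pool.Agent.Q145.SZ Pool.Agent.Q145.LQ Pool.Agent.Q145.LE Pool.Agent.Q145.LT Pool.Agent.Q145.LX

lemma cmp_num {P P' S S' E e' : ℝ} (hP : 0 ≤ P) (hP' : 0 < P') (h1 : S' * P ≤ S * P') (h2 : S * P' ≤ E * (S' * P)) (h3 : |S' - P'| ≤ e' * P')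
    (hE : E ≤ 1 + e') (hE0 : 0 ≤ E) (he0 : 0 ≤ e') (he1 : e' ≤ 1) : |S - P| ≤ 4 * e' * P := by
  rw [abs_le] at h3 ⊢
  obtain ⟨a1, a2⟩ := h3
  have h4 : (1 - e') * P ≤ S := by
    refine le_of_mul_le_mul_right ?_ hP'
    calc (1 - e') * P * P' = ((1 - e') * P') * P := by ring
      _ ≤ S' * P := mul_le_mul_of_nonneg_right (by linarith) hP
      _ ≤ S * P' := h1
  have h5 : S ≤ (1 + e') * (1 + e') * P := by
    refine le_of_mul_le_mul_right ?_ hP'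
    calc S * P' ≤ E * (S' * P) := h2
      _ ≤ E * (((1 + e') * P') * P) := mul_le_mul_of_nonneg_left (mul_le_mul_of_nonneg_right (by linarith) hP) hE0
      _ ≤ (1 + e') * (((1 + e') * P') * P) := mul_le_mul_of_nonneg_right hE (by positivity)
      _ = _ := by ring
  have h6 : e' * e' ≤ e' := by nlinarith
  have h7 : e' * e' * P ≤ e' * P := mul_le_mul_of_nonneg_right h6 hP
  have h8 : 0 ≤ e' * P := mul_nonneg he0 hP
  constructor
  · nlinarith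
  · nlinarith

/-- the series of `(A x + B) ^ 2 + c_i` from that of `x ^ 2 + c_i` -/
lemma cmp_series (cmz : S_CMZ) {z K A B : ℕ} {c s : Fin K → ℕ} {e' : ℝ} (hA : 1 ≤ A) (hz : 4 * (K + 1) ≤ z) (had : AdmQ (qz A B c) s)
    (hpos : 0 < singQ (qz 1 0 c) s) (ht : Tendsto (singPQ (qz 1 0 c) s) atTop (nhds (singQ (qz 1 0 c) s)))
    (hn : |singQ (qz 1 0 c) s - singPQ (qz 1 0 c) s z| ≤ e' * singPQ (qz 1 0 c) s z) (hE : Real.exp (4 * GA z K A) ≤ 1 + e') (he0 : 0 ≤ e') (he1 : e' ≤ 1) :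
    0 < singQ (qz A B c) s ∧ Tendsto (singPQ (qz A B c) s) atTop (nhds (singQ (qz A B c) s)) ∧
      |singQ (qz A B c) s - singPQ (qz A B c) s z| ≤ 4 * e' * singPQ (qz A B c) s z := by
  obtain ⟨-, h1, h2⟩ := cmz z K A B c s hA hz had
  obtain ⟨p1, p2⟩ := h2 hpos ht
  refine ⟨p1, p2, ?_⟩
  have hP : 0 ≤ singPQ (qz A B c) s z := Pool.Agent.Q151.LQ.singPQ_nonneg _ s z
  have hP'0 : 0 ≤ singPQ (qz 1 0 c) s z := Pool.Agent.Q151.LQ.singPQ_nonneg _ s z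
  have hP' : 0 < singPQ (qz 1 0 c) s z := by
    rcases hP'0.lt_or_eq with h | h
    · exact h
    · exfalso
      rw [← h, mul_zero, sub_zero] at hn
      have := abs_nonpos_iff.1 hn
      linarith
  have hlow : singQ (qz 1 0 c) s * singPQ (qz A B c) s z ≤ singQ (qz A B c) s * singPQ (qz 1 0 c) s z := by
    refine le_of_tendsto_of_tendsto (ht.mul_const _) (p2.mul_const _) ?_
    filter_upwards [eventually_ge_atTop z] with w hw
    exact (h1 w hw).1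
  have hup : singQ (qz A B c) s * singPQ (qz 1 0 c) s z ≤ Real.exp (4 * GA z K A) * (singQ (qz 1 0 c) s * singPQ (qz A B c) s z) := by
    refine le_of_tendsto_of_tendsto (p2.mul_const _) ((ht.mul_const _).const_mul _) ?_
    filter_upwards [eventually_ge_atTop z] with w hw
    exact (h1 w hw).2
  exact cmp_num hP hP' hlow hup hn hE (Real.exp_pos _).le he0 he1

/-- the comparison system -/
lemma sys_one {z T Y K : ℕ} (hz : 12 ≤ z) : Sys 2 z (T * Y) ((T * Y) ^ 2) (fun _ : Fin K => 12 * T ^ 2 * Y ^ 2) (qz 1 0 fun _ => 15 * T ^ 2 * Y ^ 2) := by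
  have e : ∀ i : Fin K, (qz 1 0 fun _ : Fin K => 15 * T ^ 2 * Y ^ 2) i = Polynomial.X ^ 2 + Polynomial.C ((15 * T ^ 2 * Y ^ 2 : ℕ) : ℤ) := by
    intro i
    unfold qz
    simp
  refine ⟨fun i => ?_, fun i => ?_, fun i => ?_, fun i n hn => ?_⟩
  · rw [e, Polynomial.natDegree_X_pow_add_C]
    omega
  · rw [e, Polynomial.leadingCoeff_X_pow_add_C (by norm_num)]
    simp
    omega
  · constructor
    · calc (T * Y) ^ 2 = T ^ 2 * Y ^ 2 := by ring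
        _ ≤ 12 * (T ^ 2 * Y ^ 2) := by omega
        _ = _ := by ring
    · calc 12 * T ^ 2 * Y ^ 2 = 12 * (T * Y) ^ 2 := by ring
        _ ≤ z * (T * Y) ^ 2 := Nat.mul_le_mul_right _ hz
  · rw [mem_Ioc] at hn
    obtain ⟨h1, h2⟩ := hn
    rw [qz_eval]
    have e1 : (((1 : ℕ) : ℤ) * (n : ℤ) + ((0 : ℕ) : ℤ)) ^ 2 + ((15 * T ^ 2 * Y ^ 2 : ℕ) : ℤ) = ((n ^ 2 + 15 * T ^ 2 * Y ^ 2 : ℕ) : ℤ) := by
      push_cast
      ring
    rw [e1]
    have h3 : n ^ 2 ≤ (2 * (T * Y)) ^ 2 := Nat.pow_le_pow_left h2 2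
    have h4 : (2 * (T * Y)) ^ 2 = 4 * (T ^ 2 * Y ^ 2) := by ring
    have h5 : 1 ≤ n ^ 2 := Nat.one_le_pow _ _ (by omega)
    have h6 : 15 * T ^ 2 * Y ^ 2 = 15 * (T ^ 2 * Y ^ 2) := by ring
    have h7 : 12 * T ^ 2 * Y ^ 2 = 12 * (T ^ 2 * Y ^ 2) := by ring
    generalize hg : T ^ 2 * Y ^ 2 = g at *
    constructor
    · have : 5 * (12 * T ^ 2 * Y ^ 2) < 4 * (n ^ 2 + 15 * T ^ 2 * Y ^ 2) := by omega
      exact_mod_cast this
    · have : n ^ 2 + 15 * T ^ 2 * Y ^ 2 ≤ 2 * (12 * T ^ 2 * Y ^ 2) := by omega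
      exact_mod_cast this

open Classical in
/-- most admissible constants of a class have a convergent series close to its truncation -/
theorem near_z (cmz : S_CMZ) : ∀ e δ : ℝ, 0 < e → 0 < δ → ∃ M g : ℝ, 64 ≤ M ∧ 0 < g ∧ ∀ (z T Y K A B : ℕ), M ≤ Real.log (Real.log (((T * Y) ^ 2 : ℕ) : ℝ)) →
    64 * Real.log (Real.log (((T * Y) ^ 2 : ℕ) : ℝ)) ≤ z → 64 * z * Real.log (Real.log (((T * Y) ^ 2 : ℕ) : ℝ)) ≤ Real.log ((T * Y : ℕ) : ℝ) → 16 * (K + 1) ≤ z → 1 ≤ A →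
    GA z K A ≤ g → ∀ b : Fin K → ZMod (PW z),
    (((SbQ (fun _ : Fin K => 12 * T ^ 2 * Y ^ 2) b).filter fun s => ¬ (AdmQ (qz A B fun _ => 15 * T ^ 2 * Y ^ 2) s →
      0 < singQ (qz A B fun _ => 15 * T ^ 2 * Y ^ 2) s ∧
      Tendsto (singPQ (qz A B fun _ => 15 * T ^ 2 * Y ^ 2) s) atTop (nhds (singQ (qz A B fun _ => 15 * T ^ 2 * Y ^ 2) s)) ∧
      |singQ (qz A B fun _ => 15 * T ^ 2 * Y ^ 2) s - singPQ (qz A B fun _ => 15 * T ^ 2 * Y ^ 2) s z| ≤ e * singPQ (qz A B fun _ => 15 * T ^ 2 * Y ^ 2) s z)).card : ℝ) ≤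
      δ * (SbQ (fun _ : Fin K => 12 * T ^ 2 * Y ^ 2) b).card := by
  intro e δ he hδ
  set e' : ℝ := min e 1 / 4 with he'
  have he'0 : 0 < e' := by positivity
  have he'1 : e' ≤ 1 := by
    have : min e 1 ≤ 1 := min_le_right _ _
    linarith
  have he'e : 4 * e' ≤ e := by
    have : min e 1 ≤ e := min_le_left _ _
    linarith
  obtain ⟨M, hM, hnear⟩ := near_quad tailq' (Pool.Agent.Q150.LQ.t_FARQ t_CHT) e' (δ / 2) he'0 (by positivity)
  obtain ⟨Y₀, hfar⟩ := (Pool.Agent.Q150.LQ.t_FARQ t_CHT : S_FARQ') (min 1 (δ / 2)) (by positivity)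
  have hY₀0 : (0 : ℝ) ≤ Y₀ := Nat.cast_nonneg _
  refine ⟨M + Y₀, Real.log (1 + e') / 4, by linarith, by
    have := Real.log_pos (show (1 : ℝ) < 1 + e' by linarith)
    positivity, ?_⟩
  intro z T Y K A B hX hz hzY hK hA hG b
  set H : Fin K → ℕ := fun _ => 12 * T ^ 2 * Y ^ 2 with hH
  set c : Fin K → ℕ := fun _ => 15 * T ^ 2 * Y ^ 2 with hc
  have hE : Real.exp (4 * GA z K A) ≤ 1 + e' := by
    rw [← Real.le_log_iff_exp_le (by linarith)]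
    linarith
  have hM64 : 64 ≤ M + Y₀ := by linarith
  have hY1 : 1 ≤ T * Y := by
    rcases Nat.eq_zero_or_pos (T * Y) with h | h
    · rw [h] at hX
      simp at hX
      linarith
    · exact h
  have hYX : T * Y ≤ (T * Y) ^ 2 := by nlinarith
  obtain ⟨hL0, hLM, hzM, hzL, hzl, hXe, hYe, hLe, hl64, hlL, hYXl⟩ := elemQ hM64 hX hYX hz hzY
  have hz0 : (0 : ℝ) < z := by linarith
  have hzl' : 64 * (z : ℝ) ≤ z * Real.log (Real.log (((T * Y) ^ 2 : ℕ) : ℝ)) := by nlinarith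
  have hzLY : 4096 * (z : ℝ) ≤ Real.log ((T * Y : ℕ) : ℝ) := by linarith
  have hYY : Real.log ((T * Y : ℕ) : ℝ) ≤ ((T * Y : ℕ) : ℝ) := by
    have h1 : (0 : ℝ) < ((T * Y : ℕ) : ℝ) := by exact_mod_cast hY1
    have := Real.add_one_le_exp (Real.log ((T * Y : ℕ) : ℝ))
    rw [Real.exp_log h1] at this
    linarith
  have hY₀ : Y₀ ≤ T * Y := by
    have : (Y₀ : ℝ) ≤ ((T * Y : ℕ) : ℝ) := by linarith
    exact_mod_cast this
  have hz12 : 12 ≤ z := by omega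
  have hS := sys_one (z := z) (T := T) (Y := Y) (K := K) hz12
  have hdeg : ∀ i, (qz 1 0 c i).natDegree = 2 := by
    intro i
    unfold qz
    have e1 : (Polynomial.C ((1 : ℕ) : ℤ) * Polynomial.X + Polynomial.C ((0 : ℕ) : ℤ)) ^ 2 + Polynomial.C ((c i : ℕ) : ℤ) = Polynomial.X ^ 2 + Polynomial.C ((c i : ℕ) : ℤ) := by
      simp
    rw [e1, Polynomial.natDegree_X_pow_add_C]
  have hW40 : (PW z : ℝ) ^ 40 ≤ ((T * Y : ℕ) : ℝ) ^ 2 := by
    have hW1 := one_le_PW z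
    have e1 : (PW z : ℝ) ^ 40 ≤ ((T * Y : ℕ) : ℝ) := by
      calc (PW z : ℝ) ^ 40 ≤ (Real.exp (2 * z)) ^ 40 := by gcongr; exact PW_le Pool.Agent.Q111.SZ.t_PWB z
        _ = Real.exp (80 * z) := by rw [← Real.exp_nat_mul]; ring_nf
        _ ≤ Real.exp (Real.log ((T * Y : ℕ) : ℝ)) := Real.exp_le_exp.2 (by linarith)
        _ = _ := Real.exp_log (by exact_mod_cast hY1)
    have e2 : (1 : ℝ) ≤ ((T * Y : ℕ) : ℝ) := by exact_mod_cast hY1
    nlinarith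
  have h1 := hnear z (T * Y) K H (qz 1 0 c) (by linarith) hz hzY hK hS hdeg b
  have h2 := hfar z (T * Y) K H (qz 1 0 c) hY₀ hK hS hdeg (by linarith) hW40 b
  have hsub : ((SbQ H b).filter fun s => ¬ (AdmQ (qz A B c) s → 0 < singQ (qz A B c) s ∧ Tendsto (singPQ (qz A B c) s) atTop (nhds (singQ (qz A B c) s)) ∧
      |singQ (qz A B c) s - singPQ (qz A B c) s z| ≤ e * singPQ (qz A B c) s z)) ⊆
      ((SbQ H b).filter fun s => ¬ (AdmQ (qz 1 0 c) s → |singQ (qz 1 0 c) s - singPQ (qz 1 0 c) s z| ≤ e' * singPQ (qz 1 0 c) s z)) ∪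
      ((SbQ H b).filter fun s => ¬ (AdmQ (qz 1 0 c) s → 0 < singQ (qz 1 0 c) s ∧ Tendsto (singPQ (qz 1 0 c) s) atTop (nhds (singQ (qz 1 0 c) s)) ∧
        |singQ (qz 1 0 c) s - singPQ (qz 1 0 c) s (w0 ((T * Y) ^ 2))| ≤ min 1 (δ / 2) * singPQ (qz 1 0 c) s (w0 ((T * Y) ^ 2)))) := by
    intro s hs
    rw [mem_filter] at hs
    obtain ⟨hs1, hs2⟩ := hs
    rw [mem_union, mem_filter, mem_filter]
    by_contra hcon
    rw [not_or] at hcon
    obtain ⟨c1, c2⟩ := hcon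
    have c1 : AdmQ (qz 1 0 c) s → |singQ (qz 1 0 c) s - singPQ (qz 1 0 c) s z| ≤ e' * singPQ (qz 1 0 c) s z := by
      by_contra h
      exact c1 ⟨hs1, h⟩
    have c2 : AdmQ (qz 1 0 c) s → 0 < singQ (qz 1 0 c) s ∧ Tendsto (singPQ (qz 1 0 c) s) atTop (nhds (singQ (qz 1 0 c) s)) ∧
        |singQ (qz 1 0 c) s - singPQ (qz 1 0 c) s (w0 ((T * Y) ^ 2))| ≤ min 1 (δ / 2) * singPQ (qz 1 0 c) s (w0 ((T * Y) ^ 2)) := by
      by_contra h
      exact c2 ⟨hs1, h⟩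
    apply hs2
    intro had
    have had' := (cmz z K A B c s hA (by omega) had).1
    obtain ⟨k1, k2, k3⟩ := cmp_series cmz hA (by omega) had (c2 had').1 (c2 had').2.1 (c1 had') hE he'0.le he'1
    refine ⟨k1, k2, k3.trans ?_⟩
    exact mul_le_mul_of_nonneg_right he'e (Pool.Agent.Q151.LQ.singPQ_nonneg _ s z)
  have h3 := (card_le_card hsub).trans (card_union_le _ _)
  have h4 : ((((SbQ H b).filter fun s => ¬ (AdmQ (qz A B c) s → 0 < singQ (qz A B c) s ∧ Tendsto (singPQ (qz A B c) s) atTop (nhds (singQ (qz A B c) s)) ∧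
      |singQ (qz A B c) s - singPQ (qz A B c) s z| ≤ e * singPQ (qz A B c) s z))).card : ℝ) ≤
      ((((SbQ H b).filter fun s => ¬ (AdmQ (qz 1 0 c) s → |singQ (qz 1 0 c) s - singPQ (qz 1 0 c) s z| ≤ e' * singPQ (qz 1 0 c) s z))).card : ℝ) +
      ((((SbQ H b).filter fun s => ¬ (AdmQ (qz 1 0 c) s → 0 < singQ (qz 1 0 c) s ∧ Tendsto (singPQ (qz 1 0 c) s) atTop (nhds (singQ (qz 1 0 c) s)) ∧
        |singQ (qz 1 0 c) s - singPQ (qz 1 0 c) s (w0 ((T * Y) ^ 2))| ≤ min 1 (δ / 2) * singPQ (qz 1 0 c) s (w0 ((T * Y) ^ 2))))).card : ℝ) := by exact_mod_cast h3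
  have h5 : min 1 (δ / 2) * ((SbQ H b).card : ℝ) ≤ δ / 2 * ((SbQ H b).card : ℝ) := mul_le_mul_of_nonneg_right (min_le_right _ _) (Nat.cast_nonneg _)
  have h6 : δ / 2 * ((SbQ H b).card : ℝ) + δ / 2 * ((SbQ H b).card : ℝ) = δ * ((SbQ H b).card : ℝ) := by ring
  linarith

end Pool.Agent.Q145.LZ
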