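import Pool.Agent.Q145.LZ.Fi
import Pool.Agent.Q145.LZ.Nr
import Pool.Agent.Q145.LZ.Lo
import Pool.Agent.Q145.LX.Pr

/-!
# Project LZ: averages over the pairs `(A, B)`
-/

set_option autoImplicit false

namespace Pool.Agent.Q145.LZ

open Finset Filter
open Pool.Agent.Q145.SZ Pool.Agent.Q145.LQ Pool.Agent.Q145.LE Pool.Agent.Q145.LT Pool.Agent.Q145.LX

/-- the moduli `A ≤ T` and the classes `1 ≤ B ≤ A` -/
def pairs (T : ℕ) : Finset (ℕ × ℕ) := (Icc 1 T ×ˢ Icc 1 T).filter fun x => x.2 ≤ x.1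

lemma mem_pairs {T : ℕ} {x : ℕ × ℕ} : x ∈ pairs T ↔ 1 ≤ x.2 ∧ x.2 ≤ x.1 ∧ x.1 ≤ T := by
  unfold pairs
  rw [mem_filter, mem_product, mem_Icc, mem_Icc]
  omega

lemma card_pairs (T : ℕ) : (T : ℝ) ^ 2 ≤ 2 * ((pairs T).card : ℝ) := by
  have h1 : (Icc 1 T ×ˢ Icc 1 T) ⊆ pairs T ∪ (pairs T).image Prod.swap := by
    intro x hx
    rw [mem_product, mem_Icc, mem_Icc] at hx
    rw [mem_union]
    rcases le_total x.2 x.1 with h | h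
    · left
      rw [mem_pairs]
      omega
    · right
      rw [mem_image]
      refine ⟨(x.2, x.1), ?_, rfl⟩
      rw [mem_pairs]
      simp only
      omega
  have h2 := (card_le_card h1).trans (card_union_le _ _)
  have h3 := card_image_le (s := pairs T) (f := Prod.swap)
  rw [card_product, Nat.card_Icc, Nat.add_sub_cancel] at h2
  have h4 : T * T ≤ 2 * (pairs T).card := by omega
  have h5 : ((T * T : ℕ) : ℝ) ≤ ((2 * (pairs T).card : ℕ) : ℝ) := by exact_mod_cast h4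
  push_cast at h5
  linarith

open Classical in
/-- few pairs have a common prime factor above `z` -/
theorem few_gcd : ∀ ε : ℝ, 0 < ε → ∃ z₀ : ℕ, ∀ z T : ℕ, z₀ ≤ z →
    ((((pairs T).filter fun x => ∃ p : ℕ, p.Prime ∧ z < p ∧ p ∣ x.1 ∧ p ∣ x.2).card : ℕ) : ℝ) ≤ ε * (T : ℝ) ^ 2 := by
  intro ε hε
  obtain ⟨C, hC, hSQ0⟩ := Pool.Agent.Q145.LS.t_SQ2
  have hev : ∀ᶠ z : ℕ in atTop, C / ε ≤ Real.log z ∧ 3 ≤ z := by
    have h1 : Tendsto (fun z : ℕ => Real.log z) atTop atTop :=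
      Real.tendsto_log_atTop.comp tendsto_natCast_atTop_atTop
    filter_upwards [h1.eventually_ge_atTop (C / ε), eventually_ge_atTop 3] with z a b
    exact ⟨a, b⟩
  obtain ⟨z₀, hz₀⟩ := hev.exists_forall_of_atTop
  refine ⟨z₀, ?_⟩
  intro z T hz
  obtain ⟨h1, h2⟩ := hz₀ z hz
  have hsub : ((pairs T).filter fun x => ∃ p : ℕ, p.Prime ∧ z < p ∧ p ∣ x.1 ∧ p ∣ x.2) ⊆
      ((Ioc z T).filter Nat.Prime).biUnion fun p => ((Ioc 0 T).filter fun a => p ∣ a) ×ˢ ((Ioc 0 T).filter fun a => p ∣ a) := by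
    intro x hx
    rw [mem_filter, mem_pairs] at hx
    obtain ⟨⟨a1, a2, a3⟩, p, hp, hzp, d1, d2⟩ := hx
    rw [mem_biUnion]
    have := Nat.le_of_dvd (by omega) d1
    refine ⟨p, mem_filter.2 ⟨mem_Ioc.2 ⟨hzp, by omega⟩, hp⟩, ?_⟩
    rw [mem_product, mem_filter, mem_filter, mem_Ioc, mem_Ioc]
    exact ⟨⟨by omega, d1⟩, ⟨by omega, d2⟩⟩
  have h3 := (card_le_card hsub).trans card_biUnion_le
  have h4 : ((((pairs T).filter fun x => ∃ p : ℕ, p.Prime ∧ z < p ∧ p ∣ x.1 ∧ p ∣ x.2).card : ℕ) : ℝ) ≤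
      ∑ p ∈ (Ioc z T).filter Nat.Prime, ((((((Ioc 0 T).filter fun a => p ∣ a) ×ˢ ((Ioc 0 T).filter fun a => p ∣ a))).card : ℕ) : ℝ) := by
    exact_mod_cast h3
  refine h4.trans ?_
  have h5 : ∀ p ∈ (Ioc z T).filter Nat.Prime, ((((((Ioc 0 T).filter fun a => p ∣ a) ×ˢ ((Ioc 0 T).filter fun a => p ∣ a))).card : ℕ) : ℝ) ≤
      (T : ℝ) ^ 2 * (1 / (p : ℝ) ^ 2) := by
    intro p hp
    rw [card_product, Nat.Ioc_filter_dvd_card_eq_div]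
    have h6 : ((T / p : ℕ) : ℝ) ≤ (T : ℝ) / p := Nat.cast_div_le
    push_cast
    calc ((T / p : ℕ) : ℝ) * ((T / p : ℕ) : ℝ) ≤ (T : ℝ) / p * ((T : ℝ) / p) := by gcongr
      _ = _ := by ring
  refine (sum_le_sum h5).trans ?_
  rw [← mul_sum]
  have h7 := (hSQ0 z T (by omega)).1
  have hz3 : (3 : ℝ) ≤ z := by exact_mod_cast h2
  have hlz : 1 ≤ Real.log z := by
    rw [Real.le_log_iff_exp_le (by linarith)]
    linarith [Real.exp_one_lt_d9]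
  have h8 : C / ((z : ℝ) * Real.log z) ≤ ε := by
    rw [div_le_iff₀ hε] at h1
    rw [div_le_iff₀ (by positivity)]
    have : Real.log z * ε ≤ (z * Real.log z) * ε := by
      apply mul_le_mul_of_nonneg_right _ hε.le
      nlinarith
    linarith
  calc (T : ℝ) ^ 2 * ∑ p ∈ (Ioc z T).filter Nat.Prime, 1 / (p : ℝ) ^ 2 ≤ (T : ℝ) ^ 2 * ε := by
        apply mul_le_mul_of_nonneg_left (h7.trans h8) (by positivity)
    _ = _ := by ring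

open Classical in
/-- few pairs have a modulus with large `GA` -/
theorem few_GA : ∀ g ε : ℝ, 0 < g → 0 < ε → ∃ z₀ : ℕ, ∀ z K T : ℕ, z₀ ≤ z → K ≤ z →
    ((((pairs T).filter fun x => ¬ GA z K x.1 ≤ g).card : ℕ) : ℝ) ≤ ε * (T : ℝ) ^ 2 := by
  intro g ε hg hε
  obtain ⟨z₀, hz₀⟩ := gg_c g ε hg hε
  refine ⟨z₀, ?_⟩
  intro z K T hz hK
  have h1 := hz₀ z 1 K T hz hK
  have hGG : ∀ t ∈ Icc 1 T, GG z (qt (G0 1 fun _ : Fin K => T) fun _ => t) = GA z K t := by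
    intro t ht
    unfold GG GA
    rw [sum_congr rfl fun i _ => by rw [qt_la 1 (fun _ => T) (fun _ => t) i (mem_Icc.1 ht).1], sum_const, card_univ, Fintype.card_fin, nsmul_eq_mul]
  have hsub : ((pairs T).filter fun x => ¬ GA z K x.1 ≤ g) ⊆ ((Icc 1 T).filter fun t => ¬ GG z (qt (G0 1 fun _ : Fin K => T) fun _ => t) ≤ g) ×ˢ Icc 1 T := by
    intro x hx
    rw [mem_filter, mem_pairs] at hx
    have hx1 : x.1 ∈ Icc 1 T := mem_Icc.2 ⟨by omega, hx.1.2.2⟩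
    rw [mem_product, mem_filter, hGG x.1 hx1]
    exact ⟨⟨hx1, hx.2⟩, mem_Icc.2 ⟨hx.1.1, by omega⟩⟩
  have h2 := card_le_card hsub
  rw [card_product, Nat.card_Icc, Nat.add_sub_cancel] at h2
  have h3 : ((((pairs T).filter fun x => ¬ GA z K x.1 ≤ g).card : ℕ) : ℝ) ≤
      ((((Icc 1 T).filter fun t => ¬ GG z (qt (G0 1 fun _ : Fin K => T) fun _ => t) ≤ g).card : ℕ) : ℝ) * T := by exact_mod_cast h2
  refine h3.trans ?_
  calc _ ≤ (ε * T) * T := mul_le_mul_of_nonneg_right h1 (Nat.cast_nonneg _)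
    _ = _ := by ring

/-- the systems of the pairs -/
lemma sysZ_pairs {z T Y X K : ℕ} {x : ℕ × ℕ} (hx : x ∈ pairs T) (hY : 1 ≤ Y) (hg : ¬ ∃ p : ℕ, p.Prime ∧ z < p ∧ p ∣ x.1 ∧ p ∣ x.2)
    (hS : X ≤ 12 * T ^ 2 * Y ^ 2 ∧ 12 * T ^ 2 * Y ^ 2 ≤ Uz z * X) :
    SysZ z Y X x.1 x.2 (fun _ : Fin K => 12 * T ^ 2 * Y ^ 2) (qz x.1 x.2 fun _ => 15 * T ^ 2 * Y ^ 2) := by
  rw [mem_pairs] at hx
  obtain ⟨h1, h2, h3⟩ := hx
  refine ⟨⟨_, rfl⟩, by omega, fun p hp hzp d1 d2 => hg ⟨p, hp, hzp, d1, d2⟩, fun _ => hS, fun i n hn => ?_⟩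
  rw [mem_Ioc] at hn
  rw [qz_eval]
  have e1 : ((x.1 : ℤ) * (n : ℤ) + (x.2 : ℤ)) ^ 2 + ((15 * T ^ 2 * Y ^ 2 : ℕ) : ℤ) = (((x.1 * n + x.2) ^ 2 + 15 * T ^ 2 * Y ^ 2 : ℕ) : ℤ) := by
    push_cast
    ring
  rw [e1]
  have h4 : x.1 * n + x.2 ≤ 3 * (T * Y) := by
    have a1 : x.1 * n ≤ T * (2 * Y) := Nat.mul_le_mul h3 hn.2
    have a2 : x.2 ≤ T * Y := (h2.trans h3).trans (Nat.le_mul_of_pos_right T hY)
    nlinarith
  have h5 : (x.1 * n + x.2) ^ 2 ≤ 9 * (T ^ 2 * Y ^ 2) := by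
    calc (x.1 * n + x.2) ^ 2 ≤ (3 * (T * Y)) ^ 2 := Nat.pow_le_pow_left h4 2
      _ = _ := by ring
  have h6 : 1 ≤ (x.1 * n + x.2) ^ 2 := Nat.one_le_pow _ _ (by omega)
  have h7 : 15 * T ^ 2 * Y ^ 2 = 15 * (T ^ 2 * Y ^ 2) := by ring
  have h8 : 12 * T ^ 2 * Y ^ 2 = 12 * (T ^ 2 * Y ^ 2) := by ring
  constructor
  · have : 5 * (12 * T ^ 2 * Y ^ 2) < 4 * ((x.1 * n + x.2) ^ 2 + 15 * T ^ 2 * Y ^ 2) := by omega
    exact_mod_cast this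
  · have : (x.1 * n + x.2) ^ 2 + 15 * T ^ 2 * Y ^ 2 ≤ 2 * (12 * T ^ 2 * Y ^ 2) := by omega
    exact_mod_cast this

/-- the exceptional pairs -/
lemma exq_le_z {z Y X A B K : ℕ} {H : Fin K → ℕ} {q : Fin K → Polynomial ℤ} (h : SysZ z Y X A B H q) (D : Finset ℕ) :
    (exq Y q fun _ => D).card ≤ ((Ioc Y (2 * Y) ×ˢ Ioc Y (2 * Y)).filter fun y : ℕ × ℕ => A * dst y.1 y.2 * (A * (y.1 + y.2) + 2 * B) ∈ D).card := by
  refine card_le_card fun y hy => ?_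
  unfold exq at hy
  rw [mem_filter, mem_product] at hy
  obtain ⟨⟨h1, h2⟩, i, h3⟩ := hy
  rw [mem_filter, mem_product]
  refine ⟨⟨h1, h2⟩, ?_⟩
  rw [h.dst_eq i h1 h2] at h3
  exact h3

/-- the variance -/
theorem vbz (hjg : S_JGZ) : ∃ a₀ : ℕ, ∀ θ : ℝ, 0 < θ → θ ≤ 1 → VBZ a₀ θ := by
  obtain ⟨C, hC, hl⟩ := Pool.Agent.Q38.LQ.t_LOCQ t_ABS 2
  obtain ⟨l1, l2⟩ := Pool.Agent.Q177.LQ.t_LAWQ 2 C hC (t_CRTQ 2 C hC hl)
  exact var_boundZ hjg hC l1 l2 t_MOM1Q t_MOM2Q Pool.Agent.Q177.LQ.t_NOK t_ESQ t_SIEVE t_CCB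
    Pool.Agent.Q111.SZ.t_PWB t_US t_PWC

end Pool.Agent.Q145.LZ
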