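import Pool.Agent.Q145.LZ.Hs
import Pool.Agent.Q145.LX.Lo2

/-!
# Project LZ: the weighted count, the mean, the number of prime factors of the modulus (adapted from LT/Sys, LX/Low, LX/Lo2)
-/

set_option autoImplicit false

namespace Pool.Agent.Q145.LZ

open Finset Filter
open Pool.Agent.Q145.SZ Pool.Agent.Q145.LQ Pool.Agent.Q145.LE Pool.Agent.Q145.LT Pool.Agent.Q145.LX

/-- the weighted count and the count -/
theorem wcbZ {z Y X A B K : ℕ} {H : Fin K → ℕ} {q : Fin K → Polynomial ℤ} {s : Fin K → ℕ} (hX : 3 ≤ X) (hS : SysZ z Y X A B H q) (hs : ∀ i, s i ∈ Icc 1 (H i)) :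
    (cntQ Y q s : ℝ) * ∏ i, Real.log (H i) ≤ wcQ Y q s ∧ wcQ Y q s ≤ cntQ Y q s * ∏ i, Real.log (3 * H i) := by
  classical
  have hH3 : ∀ i, 3 ≤ H i := fun i => hX.trans (hS.scale i).1
  have hH : ∀ i, (3 : ℝ) ≤ (H i : ℝ) := fun i => by exact_mod_cast hH3 i
  have hv : ∀ n ∈ Ioc Y (2 * Y), ∀ i, H i ≤ vq (q i) n + s i ∧ vq (q i) n + s i ≤ 3 * H i := by
    intro n hn i
    have h1 := hS.val i n hn
    have h2 := mem_Icc.1 (hs i)
    have h3 := hH3 i
    unfold vq
    have h4 : 0 ≤ (q i).eval (n : ℤ) := by omega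
    have h5 : (((q i).eval (n : ℤ)).toNat : ℤ) = (q i).eval (n : ℤ) := Int.toNat_of_nonneg h4
    omega
  have key : ∀ n ∈ Ioc Y (2 * Y),
      (if ∀ i, (vq (q i) n + s i).Prime then ∏ i, Real.log (H i) else 0) ≤
        ∏ i, wt (vq (q i) n + s i) ∧
      ∏ i, wt (vq (q i) n + s i) ≤
        (if ∀ i, (vq (q i) n + s i).Prime then ∏ i, Real.log (3 * H i) else 0) := by
    intro n hn
    have hb := hv n hn
    split_ifs with h
    · have hc : ∏ i, wt (vq (q i) n + s i) = ∏ i, Real.log ((vq (q i) n + s i : ℕ) : ℝ) :=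
        prod_congr rfl fun i _ => by
          unfold wt
          rw [if_pos (h i)]
      rw [hc]
      have hv1 : ∀ i, (H i : ℝ) ≤ ((vq (q i) n + s i : ℕ) : ℝ) := fun i => by
        exact_mod_cast (hb i).1
      have hv2 : ∀ i, ((vq (q i) n + s i : ℕ) : ℝ) ≤ 3 * (H i : ℝ) := fun i => by
        exact_mod_cast (hb i).2
      constructor
      · exact prod_le_prod (fun i _ => Real.log_nonneg (by linarith [hH i])) fun i _ =>
          Real.log_le_log (by linarith [hH i]) (hv1 i)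
      · exact prod_le_prod (fun i _ => Real.log_natCast_nonneg _) fun i _ =>
          Real.log_le_log (by linarith [hH i, hv1 i]) (hv2 i)
    · push Not at h
      obtain ⟨i, hi⟩ := h
      have : ∏ i, wt (vq (q i) n + s i) = 0 :=
        prod_eq_zero (mem_univ i) (by unfold wt; rw [if_neg hi])
      rw [this]
      exact ⟨le_rfl, le_rfl⟩
  have e : ∀ x : ℝ, (cntQ Y q s : ℝ) * x = ∑ n ∈ Ioc Y (2 * Y),
      (if ∀ i, (vq (q i) n + s i).Prime then x else 0) := by
    intro x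
    unfold cntQ
    rw [← sum_filter, sum_const, nsmul_eq_mul]
  rw [e, e]
  unfold wcQ
  exact ⟨sum_le_sum fun n hn => (key n hn).1, sum_le_sum fun n hn => (key n hn).2⟩

/-- the mean number of prime points, for constants in given classes -/
theorem mean_leZ : ∃ (C : ℝ) (X₀ : ℕ), 0 < C ∧ ∀ (z Y X A B K : ℕ) (H : Fin K → ℕ) (q : Fin K → Polynomial ℤ), X₀ ≤ X → 3 ≤ X → PW z ^ 2 ≤ X → 2 * PW z ≤ X → SysZ z Y X A B H q →
    ∀ b : Fin K → ZMod (PW z), ∑ s ∈ SbQ H b, (cntQ Y q s : ℝ) ≤ (Y : ℝ) * (C * vv (PW z) / Real.log X) ^ K * (SbQ H b).card := by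
  classical
  obtain ⟨C, X₀, hC, h⟩ := sum_bt
  refine ⟨C, X₀, hC, ?_⟩
  intro z Y X A B K H q hX₀ hX3 hW2 h2W hS b
  have hXr : (3 : ℝ) ≤ X := by exact_mod_cast hX3
  have hL0 : 0 < Real.log X := Real.log_pos (by linarith)
  have hXH : ∀ i, X ≤ H i := fun i => (hS.scale i).1
  have hcnt : ∀ s : Fin K → ℕ, (cntQ Y q s : ℝ) = ∑ n ∈ Ioc Y (2 * Y), ∏ i, (if (vq (q i) n + s i).Prime then (1 : ℝ) else 0) := by
    intro s
    unfold cntQ
    rw [card_eq_sum_ones, Nat.cast_sum, sum_filter]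
    refine sum_congr rfl fun n _ => ?_
    rw [Finset.prod_ite_zero]
    simp
  have h1 : ∑ s ∈ SbQ H b, (cntQ Y q s : ℝ) = ∑ n ∈ Ioc Y (2 * Y), ∏ i, ∑ t ∈ cls (H i) (b i), (if (vq (q i) n + t).Prime then (1 : ℝ) else 0) := by
    rw [sum_congr rfl fun s _ => hcnt s, sum_comm]
    refine sum_congr rfl fun n _ => ?_
    unfold SbQ
    rw [Finset.prod_univ_sum]
  have h2 : ∀ n ∈ Ioc Y (2 * Y), ∀ i, ∑ t ∈ cls (H i) (b i), (if (vq (q i) n + t).Prime then (1 : ℝ) else 0) ≤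
      (C * vv (PW z) / Real.log X) * ((cls (H i) (b i)).card : ℝ) := by
    intro n hn i
    have h3 := h z (H i) (vq (q i) n) (hX₀.trans (hXH i)) (hW2.trans (hXH i)) (h2W.trans (hXH i)) (hS.mem i hn).1 (b i)
    have h4 : ∀ t ∈ cls (H i) (b i), Real.log X * (if (vq (q i) n + t).Prime then (1 : ℝ) else 0) ≤ wt (vq (q i) n + t) := by
      intro t _
      unfold wt
      split_ifs with hp
      · rw [mul_one]
        apply Real.log_le_log (by linarith)
        have h5 := (mem_Ioc.1 (hS.mem i hn).1).1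
        have h6 := hXH i
        have : X ≤ vq (q i) n + t := by omega
        exact_mod_cast this
      · simp
    have h5 := sum_le_sum h4
    rw [← mul_sum] at h5
    have h6 := h5.trans h3
    rw [div_mul_eq_mul_div, le_div_iff₀ hL0]
    calc _ = Real.log X * ∑ t ∈ cls (H i) (b i), (if (vq (q i) n + t).Prime then (1 : ℝ) else 0) := by ring
      _ ≤ _ := h6
      _ = _ := by ring
  rw [h1]
  have h7 : ∀ n ∈ Ioc Y (2 * Y), ∏ i, ∑ t ∈ cls (H i) (b i), (if (vq (q i) n + t).Prime then (1 : ℝ) else 0) ≤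
      (C * vv (PW z) / Real.log X) ^ K * (SbQ H b).card := by
    intro n hn
    refine (prod_le_prod (fun i _ => sum_nonneg fun t _ => by split_ifs <;> norm_num) fun i _ => h2 n hn i).trans (le_of_eq ?_)
    rw [prod_mul_distrib, prod_const, card_univ, Fintype.card_fin]
    unfold SbQ
    rw [Fintype.card_piFinset]
    push_cast
    rfl
  refine (sum_le_card_nsmul _ _ _ h7).trans (le_of_eq ?_)
  rw [nsmul_eq_mul, Nat.card_Ioc, two_mul, Nat.add_sub_cancel]
  ring

/-- the modulus is at most the scale -/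
lemma SysZ.A_le {z Y X A B K : ℕ} {H : Fin K → ℕ} {q : Fin K → Polynomial ℤ} (h : SysZ z Y X A B H q) (hY : 1 ≤ Y) (i : Fin K) : A ≤ H i := by
  have h1 := (h.val i (Y + 1) (mem_Ioc.2 ⟨by omega, by omega⟩)).2
  obtain ⟨c, rfl⟩ := h.form
  rw [qz_eval] at h1
  have h2 : ((A * (Y + 1) + B) ^ 2 + c i : ℕ) ≤ 2 * H i := by
    have : (((A * (Y + 1) + B) ^ 2 + c i : ℕ) : ℤ) ≤ ((2 * H i : ℕ) : ℤ) := by
      refine le_trans (le_of_eq ?_) (h1.trans (le_of_eq ?_))
      · push_cast; ring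
      · push_cast; ring
    exact_mod_cast this
  have h3 : 2 * A ≤ A * (Y + 1) + B := by nlinarith
  have h4 : (2 * A) ^ 2 ≤ (A * (Y + 1) + B) ^ 2 := Nat.pow_le_pow_left h3 2
  have h5 : A ≤ A ^ 2 := by
    have := h.pos
    nlinarith
  nlinarith

/-- the modulus has few prime factors -/
lemma SysZ.omega_le {z Y X A B K : ℕ} {H : Fin K → ℕ} {q : Fin K → Polynomial ℤ} (h : SysZ z Y X A B H q) (hL : 0 < Real.log X) (hzL : 64 * (z : ℝ) ≤ Real.log X)
    (hKz : 64 * (K + 1) ≤ z) (hY : 1 ≤ Y) : ∀ i, 16 * (K + 1) * PW z * A.primeFactors.card ≤ H i := by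
  intro i
  have hX0 : (0 : ℝ) < X := by
    rcases Nat.eq_zero_or_pos X with h | h
    · rw [h] at hL
      simp at hL
    · exact_mod_cast h
  have hz1 : (1 : ℝ) ≤ z := by exact_mod_cast (show 1 ≤ z by omega)
  have hKr : (64 : ℝ) * (K + 1) ≤ z := by exact_mod_cast hKz
  have hK0 : (0 : ℝ) ≤ K := Nat.cast_nonneg _
  have hWe : (PW z : ℝ) ≤ Real.exp (2 * z) := PW_le Pool.Agent.Q111.SZ.t_PWB z
  have hKWz : 16 * ((K : ℝ) + 1) * PW z ≤ Real.exp (3 * z) := by
    have h1 : 16 * ((K : ℝ) + 1) ≤ Real.exp z := by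
      have := Real.add_one_le_exp (z : ℝ)
      linarith
    calc 16 * ((K : ℝ) + 1) * PW z ≤ Real.exp z * Real.exp (2 * z) := by gcongr
      _ = Real.exp (3 * z) := by rw [← Real.exp_add]; ring_nf
  have hXH : (X : ℝ) ≤ H i := by exact_mod_cast (h.scale i).1
  have hH0 : (0 : ℝ) < H i := by linarith
  obtain ⟨t, hh⟩ : ∃ t, t = Real.log (H i) := ⟨_, rfl⟩
  have hhL : Real.log X ≤ t := by rw [hh]; exact Real.log_le_log hX0 hXH
  have hHe : (H i : ℝ) = Real.exp t := by rw [hh]; exact (Real.exp_log hH0).symm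
  obtain ⟨w, hw⟩ : ∃ w, w = A.primeFactors.card := ⟨_, rfl⟩
  rw [← hw]
  have h1 : (2 : ℝ) ^ w ≤ H i := by
    have := (two_pow_omega_le (show A ≠ 0 by have := h.pos; omega)).trans (h.A_le hY i)
    rw [← hw] at this
    exact_mod_cast this
  have h2 : (w : ℝ) ≤ 2 * t := by
    have h3 : (w : ℝ) * Real.log 2 ≤ t := by
      rw [hh, ← Real.log_pow]
      exact Real.log_le_log (by positivity) h1
    have h4 := Real.log_two_gt_d9
    have h5 : (0 : ℝ) ≤ w := Nat.cast_nonneg _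
    nlinarith
  have h3 : 2 * t ≤ Real.exp (t / 2) := by
    have h4 := Real.quadratic_le_exp_of_nonneg (x := t / 2) (by linarith)
    nlinarith
  have h4 : 16 * ((K : ℝ) + 1) * PW z * w ≤ H i := by
    calc 16 * ((K : ℝ) + 1) * PW z * w ≤ Real.exp (3 * z) * (2 * t) := mul_le_mul hKWz h2 (Nat.cast_nonneg _) (Real.exp_pos _).le
      _ ≤ Real.exp (3 * z) * Real.exp (t / 2) := mul_le_mul_of_nonneg_left h3 (Real.exp_pos _).le
      _ = Real.exp (3 * z + t / 2) := by rw [← Real.exp_add]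
      _ ≤ Real.exp t := Real.exp_le_exp.2 (by linarith)
      _ = H i := hHe.symm
  exact_mod_cast h4

end Pool.Agent.Q145.LZ
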