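import Pool.Agent.Q145.LZ.Stm
import Pool.Agent.Q145.LT.Hs

/-!
# Project LZ: the average of the pair singular series in the true range (adapted from `Pool/Agent/Q145/LY/Hs.lean`)
-/

set_option autoImplicit false

namespace Pool.Agent.Q145.LZ

open Finset Filter
open Pool.Agent.Q145.SZ Pool.Agent.Q145.LQ Pool.Agent.Q145.LE Pool.Agent.Q145.LT Pool.Agent.Q261.SZ Pool.Agent.Q53.LQ.JPOLY Pool.Agent.Q53.LQ.HSQ

lemma qz_eval (A B : ℕ) {K : ℕ} (c : Fin K → ℕ) (i : Fin K) (n : ℤ) : (qz A B c i).eval n = ((A : ℤ) * n + B) ^ 2 + c i := by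
  unfold qz
  simp

lemma SysZ.nonneg {z Y X A B K : ℕ} {H : Fin K → ℕ} {q : Fin K → Polynomial ℤ} (h : SysZ z Y X A B H q) (i : Fin K) {n : ℕ} (hn : n ∈ Ioc Y (2 * Y)) :
    0 ≤ (q i).eval (n : ℤ) := by
  have := (h.val i n hn).1
  have h2 : (0 : ℤ) ≤ H i := by positivity
  linarith

lemma SysZ.mem {z Y X A B K : ℕ} {H : Fin K → ℕ} {q : Fin K → Polynomial ℤ} (h : SysZ z Y X A B H q) (i : Fin K) {n : ℕ} (hn : n ∈ Ioc Y (2 * Y)) :
    vq (q i) n ∈ Ioc (H i) (2 * H i) ∧ 5 * H i < 4 * vq (q i) n := by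
  have h1 := h.val i n hn
  have h0 := h.nonneg i hn
  have e : ((vq (q i) n : ℕ) : ℤ) = (q i).eval (n : ℤ) := Int.toNat_of_nonneg h0
  rw [← e] at h1
  rw [mem_Ioc]
  omega

lemma SysZ.deg {z Y X A B K : ℕ} {H : Fin K → ℕ} {q : Fin K → Polynomial ℤ} (h : SysZ z Y X A B H q) (i : Fin K) : 1 ≤ (q i).natDegree ∧ (q i).natDegree ≤ 2 := by
  obtain ⟨c, rfl⟩ := h.form
  have hA : (A : ℤ) ≠ 0 := by have := h.pos; omega
  have h1 : (Polynomial.C (A : ℤ) * Polynomial.X + Polynomial.C (B : ℤ)).natDegree = 1 := by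
    rw [Polynomial.natDegree_linear hA]
  have h2 : (qz A B c i).natDegree = 2 := by
    unfold qz
    rw [Polynomial.natDegree_add_C, Polynomial.natDegree_pow, h1]
  omega

/-- differences of the values -/
lemma SysZ.dst_eq {z Y X A B K : ℕ} {H : Fin K → ℕ} {q : Fin K → Polynomial ℤ} (h : SysZ z Y X A B H q) (i : Fin K) {n m : ℕ} (hn : n ∈ Ioc Y (2 * Y)) (hm : m ∈ Ioc Y (2 * Y)) :
    dst (vq (q i) n) (vq (q i) m) = A * dst n m * (A * (n + m) + 2 * B) := by
  have e1 := h.nonneg i hn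
  have e2 := h.nonneg i hm
  obtain ⟨c, rfl⟩ := h.form
  unfold vq
  rw [dst_toNat e1 e2, qz_eval, qz_eval, dst_nat]
  have e4 : ((A : ℤ) * m + B) ^ 2 + c i - (((A : ℤ) * n + B) ^ 2 + c i) = (A : ℤ) * ((m : ℤ) - n) * (A * (n + m) + 2 * B) := by ring
  rw [e4, Int.natAbs_mul, Int.natAbs_mul]
  congr 1

/-- the factor of the modulus -/
lemma JP_pow_le {z r K A : ℕ} (hr : r ≤ 2) : JP z A ^ (r * K) ≤ Real.exp (4 * GA z K A) := by
  have h0 : (0 : ℝ) ≤ ∑ p ∈ A.primeFactors.filter (fun p => z < p), 1 / (p : ℝ) := sum_nonneg fun p _ => by positivity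
  calc JP z A ^ (r * K) ≤ JP z A ^ (2 * K) := pow_le_pow_right₀ (JP_one_le _ _) (Nat.mul_le_mul_right K hr)
    _ ≤ Real.exp (2 * ∑ p ∈ A.primeFactors.filter (fun p => z < p), 1 / (p : ℝ)) ^ (2 * K) :=
        pow_le_pow_left₀ (zero_le_one.trans (JP_one_le _ _)) (JP_le_exp z _) _
    _ = _ := by
        rw [← Real.exp_nat_mul]
        congr 1
        unfold GA
        push_cast
        ring

lemma GA_nonneg (z K A : ℕ) : 0 ≤ GA z K A := by
  unfold GA
  have h0 : (0 : ℝ) ≤ ∑ p ∈ A.primeFactors.filter (fun p => z < p), 1 / (p : ℝ) := sum_nonneg fun p _ => by positivity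
  positivity

open Classical in
/-- the conclusion of `HSQ` -/
def HSQz : Prop := ∃ (C z₀ : ℕ), 1 ≤ C ∧ ∀ (z Y X A B K r : ℕ) (H : Fin K → ℕ) (q : Fin K → Polynomial ℤ), z₀ ≤ z → r ≤ 2 → 32 * K ≤ z → SysZ z Y X A B H q → Y ≤ X →
  (PW z : ℝ) ^ 32 ≤ Y → Real.log ((Uz z : ℝ) * X) ^ 64 ≤ Y → 4 * (K : ℝ) * Real.log (C * Real.log (Real.log ((Uz z : ℝ) * X))) ≤ Real.log Y / 64 → ∀ c e : ZMod (PW z),
  ∑ n ∈ (Ioc Y (2 * Y)).filter (fun n : ℕ => (n : ZMod (PW z)) = c),
    ∑ m ∈ (Ioc Y (2 * Y)).filter (fun m : ℕ => (m : ZMod (PW z)) = e ∧ okp q n m), ∏ i, SP z (H i) (dst (vq (q i) n) (vq (q i) m)) ^ r ≤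
      ((Y : ℝ) / PW z) ^ 2 * (1 + C / Real.log z) * Real.exp (4 * GA z K A)

theorem hsqZ (hJ : S_JGZ) : HSQz := by
  classical
  obtain ⟨C, z₁, hC1, hJ⟩ := hJ 1
  have hev : ∀ᶠ z : ℕ in atTop, Real.exp ((z : ℝ) / 2) ≤ PW z ∧ 60 ≤ z ∧ 1 ≤ Real.log z ∧ z₁ ≤ z := by
    have h1 : Tendsto (fun z : ℕ => Real.log z) atTop atTop :=
      Real.tendsto_log_atTop.comp tendsto_natCast_atTop_atTop
    filter_upwards [PW_large, eventually_ge_atTop 60, h1.eventually_ge_atTop 1,
      eventually_ge_atTop z₁] with z a b c d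
    exact ⟨a, b, c, d⟩
  obtain ⟨z₀, hz₀⟩ := hev.exists_forall_of_atTop
  refine ⟨4 * C, z₀, by omega, ?_⟩
  intro z Y X A B K r H q hz hr hK hS hYX hY32 hYL hYK c e
  obtain ⟨hW, hz60, hlog1, hz1⟩ := hz₀ z hz
  have hz60r : (60 : ℝ) ≤ z := by exact_mod_cast hz60
  have hW0 : (0 : ℝ) < PW z := by exact_mod_cast Nat.pos_of_ne_zero (NeZero.ne (PW z))
  have hlog0 : 0 < Real.log z := by linarith
  set E : ℝ := Real.exp (4 * GA z K A) with hE
  have hE0 : 0 < E := Real.exp_pos _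
  have hE1 : 1 ≤ E := Real.one_le_exp (by have := GA_nonneg z K A; positivity)
  rcases Nat.eq_zero_or_pos Y with hY0 | hY0
  · subst hY0
    simp
  have hX0 : 0 < X := by omega
  have hZ3 : 16 ≤ Uz z * X := le_trans (by have := le_Uz z; omega : 16 ≤ Uz z) (Nat.le_mul_of_pos_right (Uz z) hX0)
  have hYZ : Y ≤ Uz z * X := hYX.trans (Nat.le_mul_of_pos_left X (Uz_pos z))
  have hLeq : Real.log ((Uz z : ℝ) * X) = Real.log ((Uz z * X : ℕ) : ℝ) := by push_cast; rfl
  set L := Real.log ((Uz z * X : ℕ) : ℝ) with hL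
  rw [hLeq] at hYL hYK
  have hL1 : 1 ≤ L := by
    rw [hL, Real.le_log_iff_exp_le (by exact_mod_cast Nat.mul_pos (Uz_pos z) hX0)]
    have : (16 : ℝ) ≤ ((Uz z * X : ℕ) : ℝ) := by exact_mod_cast hZ3
    linarith [Real.exp_one_lt_d9]
  have hW1 : (1 : ℝ) ≤ PW z := by exact_mod_cast Nat.pos_of_ne_zero (NeZero.ne (PW z))
  have hWY : (PW z : ℝ) ^ 2 ≤ Y := (pow_le_pow_right₀ hW1 (by norm_num)).trans hY32
  set T : ℝ := (Y : ℝ) / PW z with hT
  have hY0r : (0 : ℝ) < Y := by exact_mod_cast hY0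
  have hT0 : 0 < T := by positivity
  -- the inner sum
  have hJM : ∀ R : Polynomial ℤ, R ≠ 0 → R.natDegree ≤ 1 → (∀ p : ℕ, p.Prime → z < p → (p : ℤ) ∣ R.leadingCoeff → ∀ m : ℕ, ¬ (p : ℤ) ∣ R.eval (m : ℤ)) →
      ∑ m ∈ (Ioc Y (2 * Y)).filter (fun m : ℕ => (m : ZMod (PW z)) = e ∧ R.eval (m : ℤ) ≠ 0 ∧
        (R.eval (m : ℤ)).natAbs ≤ Uz z * X), JP z (R.eval (m : ℤ)).natAbs ^ (2 * r * K) ≤
        T * (1 + C / Real.log z) := by
    intro R hR hRd hRl
    have hM4 : 2 * r * K ≤ 4 * K := Nat.mul_le_mul_right K (by omega)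
    refine hJ z Y (Uz z * X) (2 * r * K) R hz1 (by omega) hZ3 hY32 hYL ?_ hR hRd hRl e
    refine le_trans ?_ hYK
    rw [← hL]
    have h1 : ((2 * r * K : ℕ) : ℝ) ≤ 4 * K := by exact_mod_cast hM4
    have h2 : 0 ≤ Real.log L := Real.log_nonneg hL1
    have h3 : (C : ℝ) * Real.log L ≤ ((4 * C : ℕ) : ℝ) * Real.log L := by
      apply mul_le_mul_of_nonneg_right _ h2
      push_cast
      have : (0 : ℝ) ≤ C := Nat.cast_nonneg _
      linarith
    have hC1' : (1 : ℝ) ≤ C := by exact_mod_cast hC1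
    have h4 : 1 ≤ Real.log L := by
      have hL0 : 0 < L := by linarith
      rw [Real.le_log_iff_exp_le hL0]
      have h6 : Real.log 16 ≤ L := Real.log_le_log (by norm_num) (by exact_mod_cast hZ3)
      have h7 : Real.log 16 = 4 * Real.log 2 := by
        rw [show (16 : ℝ) = 2 ^ 4 by norm_num, Real.log_pow]
        norm_num
      linarith [Real.exp_one_lt_d9, Real.log_two_gt_d9]
    have h5 : 1 ≤ (C : ℝ) * Real.log L := by nlinarith
    calc ((2 * r * K : ℕ) : ℝ) * Real.log (C * Real.log L) ≤ 4 * K * Real.log (C * Real.log L) := mul_le_mul_of_nonneg_right h1 (Real.log_nonneg h5)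
      _ ≤ 4 * K * Real.log (((4 * C : ℕ) : ℝ) * Real.log L) := by
        apply mul_le_mul_of_nonneg_left _ (by positivity)
        exact Real.log_le_log (by linarith) h3
  have hone : ∀ p : ℕ, p.Prime → z < p → ¬ (p : ℤ) ∣ (1 : ℤ) := fun p hp _ hd =>
    hp.one_lt.ne' (by exact_mod_cast Int.eq_one_of_dvd_one (by positivity) hd)
  have hT1 : 0 ≤ T * (1 + C / Real.log z) := by positivity
  have hinner : ∀ n ∈ Ioc Y (2 * Y),
      ∑ m ∈ (Ioc Y (2 * Y)).filter (fun m : ℕ => (m : ZMod (PW z)) = e ∧ okp q n m),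
        ∏ i, SP z (H i) (dst (vq (q i) n) (vq (q i) m)) ^ r ≤ T * (1 + C / Real.log z) * E := by
    intro n hn
    rcases Nat.eq_zero_or_pos K with hK0 | hK0
    · subst hK0
      have h1 := hJM 1 one_ne_zero (by simp) (fun p hp hzp hd => by
        rw [Polynomial.leadingCoeff_one] at hd
        exact absurd hd (hone p hp hzp))
      refine le_trans (le_trans ?_ h1) (le_mul_of_one_le_right hT1 hE1)
      simp only [univ_eq_empty, prod_empty, mul_zero, pow_zero, sum_const, nsmul_eq_mul, mul_one]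
      have h2 : ((Ioc Y (2 * Y)).filter (fun m : ℕ => (m : ZMod (PW z)) = e ∧ okp q n m)).card ≤
        ((Ioc Y (2 * Y)).filter (fun m : ℕ => (m : ZMod (PW z)) = e ∧ (1 : Polynomial ℤ).eval (m : ℤ) ≠ 0 ∧
        ((1 : Polynomial ℤ).eval (m : ℤ)).natAbs ≤ Uz z * X)).card := by
        refine card_le_card fun m hm => ?_
        rw [mem_filter] at hm ⊢
        refine ⟨hm.1, hm.2.1, by simp, ?_⟩
        rw [Polynomial.eval_one]
        simp
        omega
      exact_mod_cast h2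
    have hKne : K ≠ 0 := by omega
    set R : Polynomial ℤ := Polynomial.C (A : ℤ) * Polynomial.X + Polynomial.C ((A * n + 2 * B : ℕ) : ℤ) with hR
    have hA : (A : ℤ) ≠ 0 := by have := hS.pos; omega
    have hRd : R.natDegree = 1 := by rw [hR, Polynomial.natDegree_linear hA]
    have hR0 : R ≠ 0 := by
      intro h
      rw [h] at hRd
      simp at hRd
    have hRl : R.leadingCoeff = A := by rw [hR, Polynomial.leadingCoeff_linear hA]
    have hRe : ∀ m : ℕ, (R.eval (m : ℤ)).natAbs = A * (n + m) + 2 * B := by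
      intro m
      rw [hR]
      simp only [Polynomial.eval_add, Polynomial.eval_mul, Polynomial.eval_C, Polynomial.eval_X]
      have : (A : ℤ) * m + ((A * n + 2 * B : ℕ) : ℤ) = ((A * (n + m) + 2 * B : ℕ) : ℤ) := by push_cast; ring
      rw [this]
      rfl
    -- the two kinds of sums
    have hX1 := hJM (Polynomial.X - Polynomial.C (n : ℤ)) (Polynomial.X_sub_C_ne_zero _)
      (by rw [Polynomial.natDegree_X_sub_C])
      (fun p hp hzp hd => by
        rw [Polynomial.leadingCoeff_X_sub_C] at hd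
        exact absurd hd (hone p hp hzp))
    have hR1 := hJM R hR0 hRd.le (fun p hp hzp hd m hm => by
      rw [hRl] at hd
      have hd' : p ∣ A := by exact_mod_cast hd
      have h1 := Int.natCast_dvd.1 hm
      rw [hRe] at h1
      have h2 : p ∣ 2 * B := (Nat.dvd_add_right (hd'.mul_right (n + m))).1 h1
      rcases hp.dvd_mul.1 h2 with h3 | h3
      · have := Nat.le_of_dvd (by norm_num) h3
        omega
      · exact hS.cop p hp hzp hd' h3)
    set F := (Ioc Y (2 * Y)).filter (fun m : ℕ => (m : ZMod (PW z)) = e ∧ okp q n m) with hF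
    have hFD : ∀ m ∈ F, dst n m ≠ 0 ∧ A * (n + m) + 2 * B ≠ 0 ∧ dst n m ≤ Uz z * X ∧ A * (n + m) + 2 * B ≤ Uz z * X := by
      intro m hm
      rw [hF, mem_filter] at hm
      have hD : dst n m ≠ 0 := by
        have := hm.2.2.1
        unfold dst
        omega
      have hA1 : 0 < A := hS.pos
      have hn1 := (mem_Ioc.1 hn).1
      have hv0 : 0 < A * (n + m) := Nat.mul_pos hA1 (by omega)
      refine ⟨hD, by omega, ?_, ?_⟩
      · rw [mem_Ioc] at hn
        have := mem_Ioc.1 hm.1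
        unfold dst
        omega
      · have h1 : A * (n + m) + 2 * B ≤ dst (vq (q ⟨0, hK0⟩) n) (vq (q ⟨0, hK0⟩) m) := by
          rw [hS.dst_eq ⟨0, hK0⟩ hn hm.1]
          exact Nat.le_mul_of_pos_left _ (Nat.mul_pos hA1 (Nat.pos_of_ne_zero hD))
        refine h1.trans (le_trans ?_ (hS.scale ⟨0, hK0⟩).2)
        have a1 := hS.val ⟨0, hK0⟩ n hn
        have a2 := hS.val ⟨0, hK0⟩ m hm.1
        unfold vq dst
        omega
    have hFX : F ⊆ (Ioc Y (2 * Y)).filter (fun m : ℕ => (m : ZMod (PW z)) = e ∧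
        (Polynomial.X - Polynomial.C (n : ℤ)).eval (m : ℤ) ≠ 0 ∧
        ((Polynomial.X - Polynomial.C (n : ℤ)).eval (m : ℤ)).natAbs ≤ Uz z * X) := by
      intro m hm
      obtain ⟨f1, f2, f3, f4⟩ := hFD m hm
      rw [hF, mem_filter] at hm
      rw [mem_filter]
      have e1 : ((Polynomial.X - Polynomial.C (n : ℤ)).eval (m : ℤ)).natAbs = dst n m := by
        rw [Polynomial.eval_sub, Polynomial.eval_X, Polynomial.eval_C, dst_nat]
      refine ⟨hm.1, hm.2.1, ?_, ?_⟩
      · rw [← Int.natAbs_ne_zero, e1]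
        exact f1
      · rw [e1]
        exact f3
    have hFR : F ⊆ (Ioc Y (2 * Y)).filter (fun m : ℕ => (m : ZMod (PW z)) = e ∧
        R.eval (m : ℤ) ≠ 0 ∧ (R.eval (m : ℤ)).natAbs ≤ Uz z * X) := by
      intro m hm
      obtain ⟨f1, f2, f3, f4⟩ := hFD m hm
      rw [hF, mem_filter] at hm
      rw [mem_filter]
      refine ⟨hm.1, hm.2.1, ?_, ?_⟩
      · rw [← Int.natAbs_ne_zero, hRe]
        exact f2
      · rw [hRe]
        exact f4
    have hpt : ∀ m ∈ F, ∏ i, SP z (H i) (dst (vq (q i) n) (vq (q i) m)) ^ r ≤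
        ((1 / 2) * JP z ((Polynomial.X - Polynomial.C (n : ℤ)).eval (m : ℤ)).natAbs ^ (2 * r * K) +
        (1 / 2) * JP z (R.eval (m : ℤ)).natAbs ^ (2 * r * K)) * E := by
      intro m hm
      obtain ⟨f1, f2, f3, f4⟩ := hFD m hm
      rw [hF, mem_filter] at hm
      have e1 : ((Polynomial.X - Polynomial.C (n : ℤ)).eval (m : ℤ)).natAbs = dst n m := by
        rw [Polynomial.eval_sub, Polynomial.eval_X, Polynomial.eval_C, dst_nat]
      rw [e1, hRe]
      have hz2 : 2 ≤ z := by omega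
      have hA1 : A ≠ 0 := by have := hS.pos; omega
      have j1 := JP_one_le z (dst n m)
      have j2 := JP_one_le z (A * (n + m) + 2 * B)
      have j3 := JP_one_le z A
      calc ∏ i, SP z (H i) (dst (vq (q i) n) (vq (q i) m)) ^ r ≤ ∏ _i : Fin K, (JP z A * JP z (dst n m) * JP z (A * (n + m) + 2 * B)) ^ r := by
            refine prod_le_prod (fun i _ => pow_nonneg (SP_nonneg hz2) r) fun i _ => ?_
            rw [hS.dst_eq i hn hm.1]
            refine pow_le_pow_left₀ (SP_nonneg hz2) ?_ r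
            refine (SP_le_JP hz2 (Nat.mul_ne_zero (Nat.mul_ne_zero hA1 f1) f2)).trans ?_
            refine (JP_mul_le (Nat.mul_ne_zero hA1 f1) f2).trans ?_
            exact mul_le_mul_of_nonneg_right (JP_mul_le hA1 f1) (by linarith)
        _ = JP z A ^ (r * K) * (JP z (dst n m) ^ (r * K) * JP z (A * (n + m) + 2 * B) ^ (r * K)) := by
            rw [prod_const, card_univ, Fintype.card_fin, ← pow_mul, mul_pow, mul_pow, mul_assoc]
        _ ≤ E * (JP z (dst n m) ^ (r * K) * JP z (A * (n + m) + 2 * B) ^ (r * K)) :=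
            mul_le_mul_of_nonneg_right (JP_pow_le hr) (by positivity)
        _ ≤ E * ((1 / 2) * JP z (dst n m) ^ (2 * r * K) + (1 / 2) * JP z (A * (n + m) + 2 * B) ^ (2 * r * K)) := by
            refine mul_le_mul_of_nonneg_left ?_ hE0.le
            have h4 : ∀ x : ℝ, x ^ (2 * r * K) = (x ^ (r * K)) ^ 2 := by
              intro x
              rw [← pow_mul]
              congr 1
              ring
            rw [h4, h4]
            nlinarith [sq_nonneg (JP z (dst n m) ^ (r * K) - JP z (A * (n + m) + 2 * B) ^ (r * K))]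
        _ = _ := by ring
    refine (sum_le_sum hpt).trans ?_
    rw [← sum_mul]
    refine mul_le_mul_of_nonneg_right ?_ hE0.le
    rw [sum_add_distrib, ← mul_sum, ← mul_sum]
    have hnn : ∀ h : ℕ, 0 ≤ JP z h ^ (2 * r * K) := fun h => pow_nonneg (zero_le_one.trans (JP_one_le z h)) _
    have b1 := (sum_le_sum_of_subset_of_nonneg (f := fun m : ℕ =>
      JP z ((Polynomial.X - Polynomial.C (n : ℤ)).eval (m : ℤ)).natAbs ^ (2 * r * K)) hFX
      fun m _ _ => hnn _).trans hX1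
    have b2 := (sum_le_sum_of_subset_of_nonneg (f := fun m : ℕ =>
      JP z (R.eval (m : ℤ)).natAbs ^ (2 * r * K)) hFR fun m _ _ => hnn _).trans hR1
    linarith
  -- the outer sum
  have hcard : (((Ioc Y (2 * Y)).filter (fun n : ℕ => (n : ZMod (PW z)) = c)).card : ℝ) ≤ T + 1 := by
    refine cnt_le Y (PW z) (Nat.pos_of_ne_zero (NeZero.ne (PW z))) _ (filter_subset _ _) fun a ha b hb => ?_
    rw [mem_filter] at ha hb
    rw [← ZMod.natCast_eq_natCast_iff, ha.2, hb.2]
  refine (sum_le_card_nsmul _ _ _ fun n hn => hinner n (mem_filter.1 hn).1).trans ?_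
  rw [nsmul_eq_mul]
  have hC0 : (0 : ℝ) ≤ C := Nat.cast_nonneg _
  have hB0 : 0 ≤ T * (1 + C / Real.log z) := by positivity
  refine (mul_le_mul_of_nonneg_right hcard (mul_nonneg hB0 hE0.le)).trans ?_
  rw [← mul_assoc]
  refine mul_le_mul_of_nonneg_right ?_ hE0.le
  have h1 : Real.log z ≤ T := by
    have h2 : (PW z : ℝ) ≤ T := by
      rw [hT, le_div_iff₀ hW0]
      calc (PW z : ℝ) * PW z = (PW z : ℝ) ^ 2 := by ring
        _ ≤ Y := hWY
    have h3 : Real.log z ≤ PW z := by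
      have h3 := Real.add_one_le_exp ((z : ℝ) / 2)
      have h4 : Real.log z ≤ (z : ℝ) / 2 + 1 := by
        have h5 : Real.log z = Real.log (z / 2) + Real.log 2 := by
          rw [← Real.log_mul (by positivity) two_ne_zero]
          congr 1
          ring
        have h6 := Real.log_le_sub_one_of_pos (show (0 : ℝ) < z / 2 by linarith)
        have h7 := Real.log_two_lt_d9
        linarith
      linarith
    linarith
  set u : ℝ := 1 / Real.log z with hu
  have hu0 : 0 < u := by positivity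
  have hu1 : u ≤ 1 := by
    rw [hu, div_le_one hlog0]
    exact hlog1
  have hTu : 1 ≤ T * u := by
    rw [hu, mul_one_div, le_div_iff₀ hlog0, one_mul]
    exact h1
  have hC1r : (1 : ℝ) ≤ C := by exact_mod_cast hC1
  have hCu : (C : ℝ) / Real.log z = C * u := by rw [hu]; ring
  have hCu4 : ((4 * C : ℕ) : ℝ) / Real.log z = 4 * C * u := by rw [hu]; push_cast; ring
  rw [hCu, hCu4]
  calc (T + 1) * (T * (1 + C * u)) ≤ (T + T * u) * (T * (1 + C * u)) := by gcongr
    _ = T ^ 2 * (1 + (1 + C) * u + C * (u * u)) := by ring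
    _ ≤ T ^ 2 * (1 + (1 + C) * u + C * (u * 1)) := by gcongr
    _ ≤ T ^ 2 * (1 + 4 * C * u) := by
        refine mul_le_mul_of_nonneg_left ?_ (by positivity)
        have h9 : u ≤ C * u := le_mul_of_one_le_left hu0.le hC1r
        have h10 : 0 ≤ C * u := mul_nonneg hC0 hu0.le
        linarith


end Pool.Agent.Q145.LZ
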