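import Pool.Agent.Q145.LX.Low
import Pool.Agent.Q145.LY.Stm

/-!
# Project LZ (helper145): statements. The polynomials `(A x + B) ^ 2 + c_i` (`n ^ 2 + a_i` in progressions to large moduli `A`), sharp threshold

* `S_JGZ`: the moments of `JP` along a polynomial whose leading coefficient may have large prime factors which never divide the values;
* `S_EXZ`: for most pairs `(A, B)`, `1 ≤ B ≤ A ≤ T`, few pairs `(n, m)` are exceptional;
* `S_CMZ`: the series of `(A x + B) ^ 2 + c_i` and of `x ^ 2 + c_i` compared;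
* `S_TRZ`: from the classes to all admissible constants.
-/

set_option autoImplicit false

namespace Pool.Agent.Q145.LZ

open Finset Filter
open Pool.Agent.Q145.SZ Pool.Agent.Q145.LQ Pool.Agent.Q145.LE Pool.Agent.Q145.LT Pool.Agent.Q145.LX

/-- the polynomials `(A x + B) ^ 2 + c_i` -/
noncomputable def qz (A B : ℕ) {K : ℕ} (c : Fin K → ℕ) : Fin K → Polynomial ℤ := fun i =>
  (Polynomial.C (A : ℤ) * Polynomial.X + Polynomial.C (B : ℤ)) ^ 2 + Polynomial.C ((c i : ℕ) : ℤ)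

/-- `K` times the sum of `1/p` over the primes `p > z` dividing `A` -/
noncomputable def GA (z K A : ℕ) : ℝ := K * ∑ p ∈ A.primeFactors.filter (fun p => z < p), 1 / (p : ℝ)

/-- the systems: `(A x + B) ^ 2 + c_i`, the primes `p > z` dividing `A` do not divide `B`; scales and values as for `SysL` -/
structure SysZ (z Y X A B : ℕ) {K : ℕ} (H : Fin K → ℕ) (q : Fin K → Polynomial ℤ) : Prop where
  form : ∃ c : Fin K → ℕ, q = qz A B c
  pos : 1 ≤ A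
  cop : ∀ p : ℕ, p.Prime → z < p → p ∣ A → ¬ p ∣ B
  scale : ∀ i, X ≤ H i ∧ H i ≤ Uz z * X
  val : ∀ i, ∀ n ∈ Ioc Y (2 * Y), 5 * (H i : ℤ) < 4 * (q i).eval (n : ℤ) ∧ (q i).eval (n : ℤ) ≤ 2 * H i

/-- **S_JGZ.** The statement `Pool.Agent.Q145.LY.S_JG` with the weaker condition on the leading coefficient. Proof: the proof in `Pool/Agent/Q285/LY/JG.lean` and `JGa.lean`
(`sumFF`, `jg`); the condition on the leading coefficient is used only to bound the number `N E` of the `m` with `∏ p ∈ E, p ∣ R(m)` by `d ^ |E| (Y / (W e(E)) + 1)`; if a prime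
`p ∈ E` (`p > z`) divides the leading coefficient then this number is `0` by the new condition. -/
def S_JGZ : Prop := ∀ d : ℕ, ∃ (C z₀ : ℕ), 1 ≤ C ∧ ∀ (z Y Z M : ℕ) (R : Polynomial ℤ), z₀ ≤ z → 8 * M ≤ z → 16 ≤ Z → (PW z : ℝ) ^ 32 ≤ Y →
  Real.log Z ^ 64 ≤ Y → (M : ℝ) * Real.log (C * Real.log (Real.log Z)) ≤ Real.log Y / 64 →
  R ≠ 0 → R.natDegree ≤ d → (∀ p : ℕ, p.Prime → z < p → (p : ℤ) ∣ R.leadingCoeff → ∀ m : ℕ, ¬ (p : ℤ) ∣ R.eval (m : ℤ)) → ∀ c : ZMod (PW z),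
  ∑ m ∈ (Ioc Y (2 * Y)).filter (fun m : ℕ => (m : ZMod (PW z)) = c ∧ R.eval (m : ℤ) ≠ 0 ∧
    (R.eval (m : ℤ)).natAbs ≤ Z), JP z (R.eval (m : ℤ)).natAbs ^ M ≤
      ((Y : ℝ) / PW z) * (1 + C / Real.log z)

/-- **S_EXZ.** Write `X = 12 T² Y²`, `L = log X`, `W = PW z`, so `W ≥ e ^ (z / 2) ≥ L ^ 32` for large `z` (see the proof of `Pool.Agent.Q145.LX.exq_x`, `Pool/Agent/Q145/LX/Av.lean`, which is the model
of the whole proof). Proof. (1) `∑_{(A, B)} #{(n, m) : A |n - m| (A (n + m) + 2 B) ∈ D} ≤ 4 ∑_{h ∈ D} τ(h) ^ 2`: for given `h ≥ 1` the map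
`(A, B, n, m) ↦ (A, |n - m|, [m < n], (n + m) mod 2)` is injective on the quadruples with `A |n - m| (A (n + m) + 2 B) = h`, and `A`, `|n - m|` divide `h`. Injective: `A`, `u = |n - m|` give
`v = A (n + m) + 2 B`; if `A s + 2 B = A s' + 2 B'` with `1 ≤ B, B' ≤ A` then `A |s - s'| = 2 |B - B'| < 2 A`, so `|s - s'| < 2`, so `s = s'` by parity; then `B = B'`, and `n + m = s`, `|n - m|` and the
order give `n, m`. (2) By Cauchy-Schwarz `∑_{h ∈ D} τ(h) ^ 2 ≤ √|D| √(∑_{h ≤ X} τ(h) ^ 4)`, and `∑_{h ≤ X} τ(h) ^ 4 ≤ X (1 + log X) ^ 15 ≤ X (2 L) ^ 15` (`Pool/Agent/W37/RK/BL1.lean`, `sum_card_pow`). (3) So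
`∑_{(A, B)} # ≤ 4 √(X / W ^ (4 a₀ + 44)) √(X (2 L) ^ 15) ≤ C X L ^ 8 / W ^ (2 a₀ + 22)`, and the number of the bad pairs `(A, B)` is `≤ (C · 12 T² Y² L ^ 8 / W ^ (2 a₀ + 22)) / (Y² / W ^ (2 a₀ + 16)) = 12 C T² L ^ 8 / W ^ 6
≤ ε T²`. -/
def S_EXZ : Prop := ∀ (a₀ : ℕ) (ε : ℝ), 0 < ε → ∃ M : ℝ, 64 ≤ M ∧ ∀ (z T Y : ℕ) (D : Finset ℕ), M ≤ Real.log (Real.log ((12 * T ^ 2 * Y ^ 2 : ℕ) : ℝ)) →
  64 * Real.log (Real.log ((12 * T ^ 2 * Y ^ 2 : ℕ) : ℝ)) ≤ z → 64 * z * Real.log (Real.log ((12 * T ^ 2 * Y ^ 2 : ℕ) : ℝ)) ≤ Real.log ((12 * T ^ 2 * Y ^ 2 : ℕ) : ℝ) →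
  64 * (z : ℝ) ≤ Real.log Y → D ⊆ Icc 1 (12 * T ^ 2 * Y ^ 2) → (D.card : ℝ) ≤ ((12 * T ^ 2 * Y ^ 2 : ℕ) : ℝ) / (PW z : ℝ) ^ (4 * a₀ + 44) →
  ((((Icc 1 T ×ˢ Icc 1 T).filter fun x : ℕ × ℕ => x.2 ≤ x.1 ∧ ¬ ((((Ioc Y (2 * Y) ×ˢ Ioc Y (2 * Y)).filter fun y : ℕ × ℕ =>
    x.1 * dst y.1 y.2 * (x.1 * (y.1 + y.2) + 2 * x.2) ∈ D).card : ℝ) ≤ (Y : ℝ) ^ 2 / (PW z : ℝ) ^ (2 * (a₀ + 8)))).card : ℕ) : ℝ) ≤ ε * (T : ℝ) ^ 2

/-- **S_CMZ.** Write `q = qz A B c`, `q' = qz 1 0 c` (`q'_i = x ^ 2 + c_i`), `ν, ν'` for `nuQ q s p`, `nuQ q' s p`. Proof. If `p ∤ A` then `n ↦ (A n + B) mod p` is a bijection of the residues and `ν = ν'`.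
If `p ∣ A` then `q_i(n) ≡ B ^ 2 + c_i`, and `AdmQ q s` gives `p ∤ B ^ 2 + c_i + s_i` for all `i`, so `ν = 0`, and `n = B mod p` is not a zero of `q'`, so `ν' < p`; so `AdmQ q' s`. Always `ν' ≤ 2 K`
for primes `p` (`x ^ 2 + c` has at most two zeros mod `p`; compare `nuQ_le_K` in `Pool/Agent/Q145/LT/Sys.lean`). `singPQ q s w = singPQ q s z ∏_{z < p ≤ w} locQ q s p` and the same for `q'`; `locQ q s p = locQ q' s p` for `p ∤ A` and
`locQ q s p = locQ q' s p / (1 - ν' / p)` for `p ∣ A`, and `1 ≤ 1 / (1 - ν' / p) ≤ exp (2 ν' / p) ≤ exp (4 K / p)` for `p > z ≥ 4 (K + 1)`, as `ν' / p ≤ 1/2`. Limits: `singPQ q s w = singPQ q' s w · ∏_{p ≤ w, p ∣ A} (locQ q s p / locQ q' s p)`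
(all factors positive, as `AdmQ q' s`), and the last product is constant for `w ≥ A`. `singQ q s` is `limUnder atTop (singPQ q s)` (use `Tendsto.limUnder_eq`). -/
def S_CMZ : Prop := ∀ (z K A B : ℕ) (c s : Fin K → ℕ), 1 ≤ A → 4 * (K + 1) ≤ z → AdmQ (qz A B c) s →
  AdmQ (qz 1 0 c) s ∧
  (∀ w : ℕ, z ≤ w → singPQ (qz 1 0 c) s w * singPQ (qz A B c) s z ≤ singPQ (qz A B c) s w * singPQ (qz 1 0 c) s z ∧
    singPQ (qz A B c) s w * singPQ (qz 1 0 c) s z ≤ Real.exp (4 * GA z K A) * (singPQ (qz 1 0 c) s w * singPQ (qz A B c) s z)) ∧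
  (0 < singQ (qz 1 0 c) s → Tendsto (singPQ (qz 1 0 c) s) atTop (nhds (singQ (qz 1 0 c) s)) →
    0 < singQ (qz A B c) s ∧ Tendsto (singPQ (qz A B c) s) atTop (nhds (singQ (qz A B c) s)))

open Classical in
/-- **S_TRZ.** The model is `bad_cardX`, `le_ATX`, `transX` in `Pool/Agent/Q145/LX/Low.lean` (and `nuQ_le_K`, `cls_adm` in `Pool/Agent/Q145/LT/Sys.lean`). The bad constants are now those `s` for which some prime `p > z`, `p ∣ A`,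
divides `B ^ 2 + c_i + s_i` for some `i`. For the other `s` and a prime `p > z`: if `p ∣ A` then `nuQ = 0`, and if `p ∤ A` then `nuQ ≤ 2 K < p`; so that `cls_adm` holds with `2 K ≤ z`. The condition `p ∣ B ^ 2 + c_i + s_i` puts `s_i` in
one class modulo `p`, so that the number of bad `s` in a class modulo `PW z` is at most `(2 GA z K A + 1/8)` times the number of all, exactly as in `bad_cardX`. -/
def S_TRZ : Prop := ∀ (z Y X K A B : ℕ) (H : Fin K → ℕ) (q : Fin K → Polynomial ℤ) (E : (Fin K → ℕ) → Prop) (η : ℝ), 2 * K ≤ z →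
  SysZ z Y X A B H q → 8 * (K + 1) * PW z ≤ X → (∀ i, 16 * (K + 1) * PW z * A.primeFactors.card ≤ H i) → GA z K A ≤ 1 / 8 →
  (∑ b ∈ AdQ (PW z) q, (((SbQ H b).filter fun s => E s).card : ℝ) / (SbQ H b).card ≤ η * (AdQ (PW z) q).card) →
  (((ATQ H q).filter fun s => E s).card : ℝ) ≤ 4 * η * (ATQ H q).card

end Pool.Agent.Q145.LZ
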