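import Pool.Agent.Q145.LZ.Av

/-!
# Project LZ: assembly (adapted from `Pool/Agent/Q145/LX/Pr.lean`)
-/

set_option autoImplicit false
set_option linter.all false

namespace Pool.Agent.Q145.LZ

open Finset Filter
open Pool.Agent.Q145.SZ Pool.Agent.Q145.LQ Pool.Agent.Q145.LE Pool.Agent.Q145.LT Pool.Agent.Q145.LX
open Pool.Agent.Q145.LS (SUFP SUFc case1 case2 dich)

open Classical in
/-- the result above the threshold -/
def PZX (θ C : ℝ) (X Q : ℕ) (ε : ℝ) : Prop := ∀ (Y K T : ℕ),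
  ((1 + θ) * K + C) * Real.log (Real.log X) ≤ Real.log Y → Y ≤ X → 12 * (K + 1) ≤ Q →
  X ≤ 12 * T ^ 2 * Y ^ 2 ∧ 12 * T ^ 2 * Y ^ 2 ≤ Uz (12 * (K + 1)) * X →
  ((((pairs T).filter fun x => ¬ HLC Y (fun _ : Fin K => 12 * T ^ 2 * Y ^ 2) (qz x.1 x.2 fun _ => 15 * T ^ 2 * Y ^ 2) ε).card : ℕ) : ℝ) ≤ ε * (pairs T).card

open Classical in
/-- convergence of the series for most admissible constants, from the classes -/
lemma conv_z (trz : S_TRZ) {z Y X K A B : ℕ} {H : Fin K → ℕ} {q : Fin K → Polynomial ℤ} {S : (Fin K → ℕ) → Prop} {δ : ℝ} (hδ : 0 ≤ δ) (hK : 2 * K ≤ z) (hS : SysZ z Y X A B H q)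
    (h8 : 8 * (K + 1) * PW z ≤ X) (hω : ∀ i, 16 * (K + 1) * PW z * A.primeFactors.card ≤ H i) (hG : GA z K A ≤ 1 / 8)
    (h : ∀ b : Fin K → ZMod (PW z), (((SbQ H b).filter fun s => ¬ (AdmQ q s → S s)).card : ℝ) ≤ δ * (SbQ H b).card) :
    (((ATQ H q).filter fun s => ¬ S s).card : ℝ) ≤ 4 * δ * (ATQ H q).card := by
  obtain ⟨E, hE⟩ : ∃ E : (Fin K → ℕ) → Prop, ∀ s, E s ↔ ¬ (AdmQ q s → S s) := ⟨_, fun _ => Iff.rfl⟩
  have hb : ∀ b : Fin K → ZMod (PW z), (((SbQ H b).filter fun s => E s).card : ℝ) ≤ δ * (SbQ H b).card := by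
    intro b
    refine le_trans ?_ (h b)
    have : ((SbQ H b).filter fun s => E s) ⊆ ((SbQ H b).filter fun s => ¬ (AdmQ q s → S s)) := by
      intro s hs
      rw [mem_filter] at hs ⊢
      exact ⟨hs.1, (hE s).1 hs.2⟩
    exact_mod_cast card_le_card this
  have ht := trz z Y X K A B H q E δ hK hS h8 hω hG (by
    calc _ ≤ ∑ _b ∈ AdQ (PW z) q, δ := by
          apply sum_le_sum
          intro b _
          exact div_le_of_le_mul₀ (Nat.cast_nonneg _) hδ (hb b)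
      _ = δ * (AdQ (PW z) q).card := by rw [sum_const, nsmul_eq_mul]; ring)
  refine le_trans ?_ ht
  have : ((ATQ H q).filter fun s => ¬ S s) ⊆ ((ATQ H q).filter fun s => E s) := by
    intro s hs
    rw [mem_filter] at hs ⊢
    refine ⟨hs.1, (hE s).2 fun h2 => hs.2 (h2 ?_)⟩
    have h3 := hs.1
    unfold ATQ at h3
    exact (mem_filter.1 h3).2
  exact_mod_cast card_le_card this

open Classical in
theorem sufZ (hjg : S_JGZ) (exz : S_EXZ) (cmz : S_CMZ) (trz : S_TRZ) {θ : ℝ} (hθ0 : 0 < θ) (hθ1 : θ ≤ 1) : ∃ C : ℝ, 0 < C ∧ SUFP (PZX θ C) := by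
  obtain ⟨a₀, vbA⟩ := vbz hjg
  have vb := vbA θ hθ0 hθ1
  obtain ⟨B, C₀', hB, hC₀', hin⟩ := inputsE anE Pool.Agent.Q53.LQ.H2U.main (2 * (a₀ + 11)) (4 * a₀ + 44) (by omega)
  have hκr : 64 ≤ 64 / θ := by
    rw [le_div_iff₀ hθ0]
    linarith
  have hκ0 : 0 < 64 / θ := by positivity
  obtain ⟨C₀, hC₀d⟩ : ∃ C₀ : ℝ, C₀ = C₀' + 1024 := ⟨_, rfl⟩
  have hC₀ : 64 ≤ C₀ := by linarith
  refine ⟨64 / θ * (C₀ + 2) + 2, by positivity, B, C₀ + 1, hB, by linarith, fun ε hε => ?_⟩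
  obtain ⟨M₁, hM₁, hexq⟩ := exz a₀ (ε / 8) (by positivity)
  obtain ⟨M₂, g₂, hM₂, hg₂, hnear⟩ := near_z cmz (min (ε / 2) 1 / 16) (ε / 2 / 16) (by positivity) (by positivity)
  obtain ⟨M₃, g₃, hM₃, hg₃, hh⟩ := hls_boundZ hθ0 hθ1 trz vb t_MBQ Pool.Agent.Q111.SZ.t_PWB (ε / 2) (by positivity)
  set g : ℝ := min (min g₂ g₃) (1 / 8) with hg
  have hg0 : 0 < g := by positivity
  have hgg2 : g ≤ g₂ := (min_le_left _ _).trans (min_le_left _ _)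
  have hgg3 : g ≤ g₃ := (min_le_left _ _).trans (min_le_right _ _)
  have hgg4 : g ≤ 1 / 8 := min_le_right _ _
  obtain ⟨z₀, hgm⟩ := few_GA g (ε / 8) hg0 (by positivity)
  obtain ⟨z₂, hgc⟩ := few_gcd (ε / 8) (by positivity)
  have hz₀0 : (0 : ℝ) ≤ z₀ := Nat.cast_nonneg _
  have hz₂0 : (0 : ℝ) ≤ z₂ := Nat.cast_nonneg _
  refine ⟨M₁ + M₂ + M₃ + C₀ + z₀ + z₂ + 2 + 192 * (64 / θ), by linarith, ?_⟩
  intro z₁ X ω T hl hz₁ hzL₁ hω hω4 hωL hT hTz₁ hTL hZF₁ Q hQ₁ Y K Tt hYl hYX hKQ hSys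
  set l := Real.log (Real.log X) with hldef
  have hl0 : 0 < l := by linarith
  have hl1 : 1 ≤ l := by linarith
  -- the smaller sieve level
  set z : ℕ := max (192 * (K + 1)) ⌈C₀ * l⌉₊ with hzdef
  have hzz : z ≤ z₁ := by
    apply max_le (by omega)
    apply Nat.ceil_le.2
    refine le_trans ?_ hz₁
    have e : (C₀ + 1) * l = C₀ * l + l := by ring
    linarith
  have hz : C₀ * l ≤ z := (Nat.le_ceil _).trans (by exact_mod_cast le_max_right _ _)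
  have hK64' : 192 * (K + 1) ≤ z := le_max_left _ _
  have hK64 : 64 * (2 + 1) * (K + 1) ≤ z := by omega
  have hzub : (z : ℝ) ≤ 192 * (K + 1) + C₀ * l + 1 := by
    have h1 : (⌈C₀ * l⌉₊ : ℝ) ≤ C₀ * l + 1 := (Nat.ceil_lt_add_one (by positivity)).le
    have h2 : (z : ℝ) = max ((192 * (K + 1) : ℕ) : ℝ) (⌈C₀ * l⌉₊ : ℝ) := by
      rw [hzdef]
      push_cast
      rfl
    have h3 : 0 ≤ (K : ℝ) := Nat.cast_nonneg _
    have h4 : 0 ≤ C₀ * l := by positivity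
    rw [h2]
    apply max_le
    · push_cast
      linarith
    · linarith
  have hzzr : (z : ℝ) ≤ z₁ := by exact_mod_cast hzz
  have hz0 : (0 : ℝ) ≤ z := by positivity
  have hlog0 : 0 ≤ Real.log X := Real.log_natCast_nonneg X
  have hC₀0 : 0 ≤ C₀ := by linarith
  have hz₁0 : (0 : ℝ) ≤ z₁ := by positivity
  have hC₀l : 0 ≤ C₀ * l := by positivity
  have hzl0 : 0 ≤ (z₁ : ℝ) * l := by positivity
  have hS : X ≤ 12 * Tt ^ 2 * Y ^ 2 ∧ 12 * Tt ^ 2 * Y ^ 2 ≤ Uz z * X := ⟨hSys.1, hSys.2.trans (Nat.mul_le_mul_right _ (Uz_mono (by omega)))⟩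
  have c2 : C₀ * z * l ≤ Real.log X := by
    have h1 : C₀ * z * l ≤ C₀ * z₁ * l := by gcongr
    have e : (C₀ + 1) * z₁ * l = C₀ * z₁ * l + z₁ * l := by ring
    linarith
  have c3 : C₀ * l ≤ ω * Real.log X := by
    have e : (C₀ + 1) * l = C₀ * l + l := by ring
    linarith
  have c4 : 7 * √(Real.log X) ≤ Real.log T := by
    refine le_trans ?_ hTL
    have := Real.sqrt_nonneg (Real.log X)
    linarith
  have hTz : 120 * B * z ≤ Real.log T := by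
    refine le_trans ?_ hTz₁
    gcongr
  have hZF : ZF (PW z ^ B) ω T := ZF_mono (Nat.pow_le_pow_left (PW_mono hzz) B) hZF₁
  have hzl : 0 ≤ (z : ℝ) * l := by positivity
  have d1 : 1024 * l ≤ z := by
    have : (1024 : ℝ) * l ≤ C₀ * l := mul_le_mul_of_nonneg_right (by linarith) hl0.le
    linarith
  have d2 : 1024 * (z * l) ≤ Real.log X := by
    have h1 : (1024 : ℝ) * (z * l) ≤ C₀ * (z * l) := mul_le_mul_of_nonneg_right (by linarith) hzl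
    have e : C₀ * (z * l) = C₀ * z * l := by ring
    linarith
  have d3 : C₀' * l ≤ z := by
    have : C₀' * l ≤ C₀ * l := mul_le_mul_of_nonneg_right (by linarith) hl0.le
    linarith
  have d4 : C₀' * z * l ≤ Real.log X := by
    have h1 : C₀' * (z * l) ≤ C₀ * (z * l) := mul_le_mul_of_nonneg_right (by linarith) hzl
    have e : C₀ * (z * l) = C₀ * z * l := by ring
    have e' : C₀' * (z * l) = C₀' * z * l := by ring
    linarith
  have d5 : C₀' * l ≤ ω * Real.log X := by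
    have : C₀' * l ≤ C₀ * l := mul_le_mul_of_nonneg_right (by linarith) hl0.le
    linarith
  have c5 : 64 * l ≤ z := by linarith
  have hKr : 0 ≤ (K : ℝ) := Nat.cast_nonneg _
  have c6 : 64 / θ * z ≤ Real.log Y := by
    refine le_trans ?_ hYl
    have h1 : 192 * (64 / θ) ≤ l := by linarith
    have h3 : 64 / θ * z ≤ 64 / θ * (192 * (K + 1) + C₀ * l + 1) := mul_le_mul_of_nonneg_left hzub hκ0.le
    have h4 : 64 / θ * (192 * ((K : ℝ) + 1)) ≤ l * (K + 1) := by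
      calc 64 / θ * (192 * ((K : ℝ) + 1)) = (192 * (64 / θ)) * (K + 1) := by ring
        _ ≤ _ := by gcongr
    have h5 : 64 / θ * 1 ≤ 64 / θ * l := mul_le_mul_of_nonneg_left hl1 hκ0.le
    have h6 : 0 ≤ θ * K * l := by positivity
    have e1 : 64 / θ * (192 * ((K : ℝ) + 1) + C₀ * l + 1) = 64 / θ * (192 * ((K : ℝ) + 1)) + 64 / θ * (C₀ * l) + 64 / θ * 1 := by ring
    have e2 : ((1 + θ) * K + (64 / θ * (C₀ + 2) + 2)) * l = K * l + θ * K * l + 64 / θ * (C₀ * l) + 2 * (64 / θ * l) + 2 * l := by ring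
    have e3 : l * ((K : ℝ) + 1) = K * l + l := by ring
    have h7 : 0 ≤ 64 / θ * l := by positivity
    rw [e2]
    rw [e1] at h3
    linarith
  have c8 : (1 + θ) * (K * l) ≤ Real.log Y := by
    refine le_trans ?_ hYl
    have h6 : 0 ≤ (64 / θ * (C₀ + 2) + 2) * l := by positivity
    have e2 : ((1 + θ) * K + (64 / θ * (C₀ + 2) + 2)) * l = (1 + θ) * (K * l) + (64 / θ * (C₀ + 2) + 2) * l := by ring
    linarith
  have c7 : 64 * (z : ℝ) ≤ Real.log Y := by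
    have h1 : (64 : ℝ) * z ≤ 64 / θ * z := by gcongr
    linarith
  have e64 : 64 * (z * l) = 64 * z * l := by ring
  have c9 : 64 * z * l ≤ Real.log X := by linarith
  have hKz : K ≤ z := by omega
  have hz1r : (1 : ℝ) ≤ z := by exact_mod_cast (show 1 ≤ z by omega)
  have hY1 : 1 ≤ Y := by
    rcases Nat.eq_zero_or_pos Y with h | h
    · rw [h] at c7
      simp at c7
      linarith
    · exact h
  have hz₀z : z₀ ≤ z := by
    have : (z₀ : ℝ) ≤ z := by linarith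
    exact_mod_cast this
  have hz₂z : z₂ ≤ z := by
    have : (z₂ : ℝ) ≤ z := by linarith
    exact_mod_cast this
  have hL0 : 0 < Real.log X := by
    have : 0 ≤ 1023 * ((z : ℝ) * l) := by positivity
    have h2 : (1 : ℝ) * 1 ≤ z * l := mul_le_mul hz1r hl1 (by norm_num) hz0
    linarith
  have hX0 : (0 : ℝ) < X := by
    rcases Nat.eq_zero_or_pos X with h | h
    · rw [h] at hL0
      simp at hL0
    · exact_mod_cast h
  obtain ⟨N, hN⟩ : ∃ N : ℕ, N = 12 * Tt ^ 2 * Y ^ 2 := ⟨_, rfl⟩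
  have hXN : X ≤ N := by rw [hN]; exact hS.1
  obtain ⟨s1, s2, s3, s4⟩ := scaleE (Z := N) (by linarith : 64 ≤ Real.log (Real.log X)) c5 c9 hXN (by rw [hN]; exact hS.2)
  have hN0 : (0 : ℝ) < N := by
    have : (X : ℝ) ≤ N := by exact_mod_cast hXN
    linarith
  -- the numbers `(T Y) ^ 2`
  obtain ⟨P, hP⟩ : ∃ P : ℕ, P = (Tt * Y) ^ 2 := ⟨_, rfl⟩
  have hNP : N = 12 * P := by rw [hN, hP]; ring
  have hP0 : (0 : ℝ) < P := by
    rw [hNP] at hN0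
    push_cast at hN0
    linarith
  have hlogP : Real.log P = Real.log N - Real.log 12 := by
    rw [hNP]
    push_cast
    rw [Real.log_mul (by norm_num) hP0.ne']
    ring
  have hl12 : 0 ≤ Real.log 12 ∧ Real.log 12 ≤ 11 := by
    refine ⟨Real.log_nonneg (by norm_num), ?_⟩
    have := Real.log_le_sub_one_of_pos (show (0 : ℝ) < 12 by norm_num)
    linarith
  have h2l : 64 ≤ Real.log X := by
    have h2 : (1 : ℝ) * 1 ≤ z * l := mul_le_mul hz1r hl1 (by norm_num) hz0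
    linarith
  have hP1 : Real.log X / 2 ≤ Real.log P := by
    rw [hlogP]
    linarith
  have hP2 : Real.log P ≤ Real.log N := by
    rw [hlogP]
    linarith
  have hPpos : 0 < Real.log P := by linarith
  have hll1 : l - 1 ≤ Real.log (Real.log P) := by
    have h3 : Real.log (Real.log X / 2) ≤ Real.log (Real.log P) := Real.log_le_log (by positivity) hP1
    rw [Real.log_div hL0.ne' (by norm_num)] at h3
    have h4 := Real.log_two_lt_d9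
    linarith
  have hll2 : Real.log (Real.log P) ≤ Real.log (Real.log N) := Real.log_le_log hPpos hP2
  have hll3 : Real.log (Real.log P) ≤ 2 * l := hll2.trans s4
  have hPTY : Real.log P = 2 * Real.log ((Tt * Y : ℕ) : ℝ) := by
    rw [hP]
    push_cast
    rw [Real.log_pow]
    norm_num
  have hzll : (z : ℝ) * Real.log (Real.log P) ≤ z * (2 * l) := mul_le_mul_of_nonneg_left hll3 hz0
  have hzlN : (z : ℝ) * Real.log (Real.log N) ≤ z * (2 * l) := mul_le_mul_of_nonneg_left s4 hz0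
  obtain ⟨h1, D, hD, hDc, h2⟩ := hin z X ω T (by linarith) d3 d4 hω hω4 d5 hT hTz c4 hZF (12 * Tt ^ 2 * Y ^ 2) hS.1 hS.2
  have hex := hexq z Tt Y D (by rw [← hN]; linarith) (by rw [← hN]; linarith) (by rw [← hN]; linarith) c7 hD hDc
  have hgm1 := hgm z K Tt hz₀z hKz
  have hgc1 := hgc z Tt hz₂z
  have hcp := card_pairs Tt
  have h8 : 8 * (K + 1) * PW z ≤ X := by
    have : (8 * ((K : ℝ) + 1)) * PW z ≤ X := by
      have hKz' : (192 : ℝ) * (K + 1) ≤ z := by exact_mod_cast hK64'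
      calc (8 * ((K : ℝ) + 1)) * PW z ≤ Real.exp z * Real.exp (2 * z) := by
            gcongr
            · have : (z : ℝ) + 1 ≤ Real.exp z := Real.add_one_le_exp _
              linarith
            · exact PW_le Pool.Agent.Q111.SZ.t_PWB z
        _ = Real.exp (3 * z) := by rw [← Real.exp_add]; ring_nf
        _ ≤ Real.exp (Real.log X) := Real.exp_le_exp.2 (by
            have h2 : (z : ℝ) * 1 ≤ z * l := mul_le_mul_of_nonneg_left hl1 hz0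
            linarith)
        _ = X := Real.exp_log hX0
    exact_mod_cast this
  have hsub : ((pairs Tt).filter fun x => ¬ HLC Y (fun _ : Fin K => 12 * Tt ^ 2 * Y ^ 2) (qz x.1 x.2 fun _ => 15 * Tt ^ 2 * Y ^ 2) ε) ⊆
      (((Icc 1 Tt ×ˢ Icc 1 Tt).filter fun x : ℕ × ℕ => x.2 ≤ x.1 ∧ ¬ ((((Ioc Y (2 * Y) ×ˢ Ioc Y (2 * Y)).filter fun y : ℕ × ℕ =>
        x.1 * dst y.1 y.2 * (x.1 * (y.1 + y.2) + 2 * x.2) ∈ D).card : ℝ) ≤ (Y : ℝ) ^ 2 / (PW z : ℝ) ^ (2 * (a₀ + 8))))) ∪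
      (((pairs Tt).filter fun x => ¬ GA z K x.1 ≤ g) ∪ ((pairs Tt).filter fun x => ∃ p : ℕ, p.Prime ∧ z < p ∧ p ∣ x.1 ∧ p ∣ x.2)) := by
    intro x hx
    rw [mem_filter] at hx
    by_contra hcon
    rw [mem_union, mem_union, mem_filter, mem_filter, mem_filter, not_or, not_or] at hcon
    obtain ⟨k1, k2, k3⟩ := hcon
    have hxp := hx.1
    have k2 : GA z K x.1 ≤ g := by
      by_contra h
      exact k2 ⟨hxp, h⟩
    have k3 : ¬ ∃ p : ℕ, p.Prime ∧ z < p ∧ p ∣ x.1 ∧ p ∣ x.2 := fun h => k3 ⟨hxp, h⟩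
    have k1 : (((Ioc Y (2 * Y) ×ˢ Ioc Y (2 * Y)).filter fun y : ℕ × ℕ =>
        x.1 * dst y.1 y.2 * (x.1 * (y.1 + y.2) + 2 * x.2) ∈ D).card : ℝ) ≤ (Y : ℝ) ^ 2 / (PW z : ℝ) ^ (2 * (a₀ + 8)) := by
      by_contra h
      apply k1
      have hxp' := hxp
      unfold pairs at hxp'
      rw [mem_filter] at hxp'
      exact ⟨hxp'.1, hxp'.2, h⟩
    apply hx.2
    have hSt : SysZ z Y X x.1 x.2 (fun _ : Fin K => 12 * Tt ^ 2 * Y ^ 2) (qz x.1 x.2 fun _ => 15 * Tt ^ 2 * Y ^ 2) := sysZ_pairs hxp hY1 k3 hS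
    have hexx : ((exq Y (qz x.1 x.2 fun _ : Fin K => 15 * Tt ^ 2 * Y ^ 2) fun _ => D).card : ℝ) ≤ (Y : ℝ) ^ 2 / (PW z : ℝ) ^ (2 * (a₀ + 8)) := by
      refine le_trans ?_ k1
      exact_mod_cast exq_le_z hSt D
    have hnr := hnear z Tt Y K x.1 x.2 (by rw [← hP]; linarith) (by rw [← hP]; linarith) (by rw [← hP]; linarith) (by omega)
      (hSt.pos) (k2.trans hgg2)
    have hnq : NearQ z (fun _ : Fin K => 12 * Tt ^ 2 * Y ^ 2) (qz x.1 x.2 fun _ => 15 * Tt ^ 2 * Y ^ 2) (singQ (qz x.1 x.2 fun _ => 15 * Tt ^ 2 * Y ^ 2))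
        (min (ε / 2) 1 / 16) (ε / 2 / 16) := by
      intro b
      refine le_trans ?_ (hnr b)
      have : ((SbQ (fun _ : Fin K => 12 * Tt ^ 2 * Y ^ 2) b).filter fun s => ¬ (AdmQ (qz x.1 x.2 fun _ => 15 * Tt ^ 2 * Y ^ 2) s →
          |singQ (qz x.1 x.2 fun _ => 15 * Tt ^ 2 * Y ^ 2) s - singPQ (qz x.1 x.2 fun _ => 15 * Tt ^ 2 * Y ^ 2) s z| ≤
            min (ε / 2) 1 / 16 * singPQ (qz x.1 x.2 fun _ => 15 * Tt ^ 2 * Y ^ 2) s z)) ⊆
          ((SbQ (fun _ : Fin K => 12 * Tt ^ 2 * Y ^ 2) b).filter fun s => ¬ (AdmQ (qz x.1 x.2 fun _ => 15 * Tt ^ 2 * Y ^ 2) s →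
          0 < singQ (qz x.1 x.2 fun _ => 15 * Tt ^ 2 * Y ^ 2) s ∧
          Tendsto (singPQ (qz x.1 x.2 fun _ => 15 * Tt ^ 2 * Y ^ 2) s) atTop (nhds (singQ (qz x.1 x.2 fun _ => 15 * Tt ^ 2 * Y ^ 2) s)) ∧
          |singQ (qz x.1 x.2 fun _ => 15 * Tt ^ 2 * Y ^ 2) s - singPQ (qz x.1 x.2 fun _ => 15 * Tt ^ 2 * Y ^ 2) s z| ≤
            min (ε / 2) 1 / 16 * singPQ (qz x.1 x.2 fun _ => 15 * Tt ^ 2 * Y ^ 2) s z)) := by
        intro s hs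
        rw [mem_filter] at hs ⊢
        exact ⟨hs.1, fun h => hs.2 fun had => (h had).2.2⟩
      exact_mod_cast card_le_card this
    have hω := hSt.omega_le hL0 (by
      have h2 : (z : ℝ) * 1 ≤ z * l := mul_le_mul_of_nonneg_left hl1 hz0
      linarith) (by omega) hY1
    have hcv : (((ATQ (fun _ : Fin K => 12 * Tt ^ 2 * Y ^ 2) (qz x.1 x.2 fun _ => 15 * Tt ^ 2 * Y ^ 2)).filter fun s => ¬ (0 < singQ (qz x.1 x.2 fun _ => 15 * Tt ^ 2 * Y ^ 2) s ∧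
        Tendsto (singPQ (qz x.1 x.2 fun _ => 15 * Tt ^ 2 * Y ^ 2) s) atTop (nhds (singQ (qz x.1 x.2 fun _ => 15 * Tt ^ 2 * Y ^ 2) s)))).card : ℝ) ≤
        4 * (ε / 2 / 16) * (ATQ (fun _ : Fin K => 12 * Tt ^ 2 * Y ^ 2) (qz x.1 x.2 fun _ => 15 * Tt ^ 2 * Y ^ 2)).card := by
      have hcz := conv_z (S := fun s => 0 < singQ (qz x.1 x.2 fun _ => 15 * Tt ^ 2 * Y ^ 2) s ∧
          Tendsto (singPQ (qz x.1 x.2 fun _ => 15 * Tt ^ 2 * Y ^ 2) s) atTop (nhds (singQ (qz x.1 x.2 fun _ => 15 * Tt ^ 2 * Y ^ 2) s)))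
          (δ := ε / 2 / 16) trz (by positivity) (by omega) hSt h8 hω (k2.trans hgg4) (fun b => le_trans ?_ (hnr b))
      · refine le_trans ?_ hcz
        have : ((ATQ (fun _ : Fin K => 12 * Tt ^ 2 * Y ^ 2) (qz x.1 x.2 fun _ => 15 * Tt ^ 2 * Y ^ 2)).filter fun s => ¬ (0 < singQ (qz x.1 x.2 fun _ => 15 * Tt ^ 2 * Y ^ 2) s ∧
          Tendsto (singPQ (qz x.1 x.2 fun _ => 15 * Tt ^ 2 * Y ^ 2) s) atTop (nhds (singQ (qz x.1 x.2 fun _ => 15 * Tt ^ 2 * Y ^ 2) s)))) ⊆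
          ((ATQ (fun _ : Fin K => 12 * Tt ^ 2 * Y ^ 2) (qz x.1 x.2 fun _ => 15 * Tt ^ 2 * Y ^ 2)).filter fun s => ¬ (fun s => 0 < singQ (qz x.1 x.2 fun _ => 15 * Tt ^ 2 * Y ^ 2) s ∧
          Tendsto (singPQ (qz x.1 x.2 fun _ => 15 * Tt ^ 2 * Y ^ 2) s) atTop (nhds (singQ (qz x.1 x.2 fun _ => 15 * Tt ^ 2 * Y ^ 2) s))) s) := by
          intro s hs
          rw [mem_filter] at hs ⊢
          exact ⟨hs.1, hs.2⟩
        exact_mod_cast card_le_card this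
      have : ((SbQ (fun _ : Fin K => 12 * Tt ^ 2 * Y ^ 2) b).filter fun s => ¬ (AdmQ (qz x.1 x.2 fun _ => 15 * Tt ^ 2 * Y ^ 2) s →
          (fun s => 0 < singQ (qz x.1 x.2 fun _ => 15 * Tt ^ 2 * Y ^ 2) s ∧
          Tendsto (singPQ (qz x.1 x.2 fun _ => 15 * Tt ^ 2 * Y ^ 2) s) atTop (nhds (singQ (qz x.1 x.2 fun _ => 15 * Tt ^ 2 * Y ^ 2) s))) s)) ⊆
          ((SbQ (fun _ : Fin K => 12 * Tt ^ 2 * Y ^ 2) b).filter fun s => ¬ (AdmQ (qz x.1 x.2 fun _ => 15 * Tt ^ 2 * Y ^ 2) s →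
          0 < singQ (qz x.1 x.2 fun _ => 15 * Tt ^ 2 * Y ^ 2) s ∧
          Tendsto (singPQ (qz x.1 x.2 fun _ => 15 * Tt ^ 2 * Y ^ 2) s) atTop (nhds (singQ (qz x.1 x.2 fun _ => 15 * Tt ^ 2 * Y ^ 2) s)) ∧
          |singQ (qz x.1 x.2 fun _ => 15 * Tt ^ 2 * Y ^ 2) s - singPQ (qz x.1 x.2 fun _ => 15 * Tt ^ 2 * Y ^ 2) s z| ≤
            min (ε / 2) 1 / 16 * singPQ (qz x.1 x.2 fun _ => 15 * Tt ^ 2 * Y ^ 2) s z)) := by
        intro s hs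
        rw [mem_filter] at hs ⊢
        exact ⟨hs.1, fun h => hs.2 fun had => ⟨(h had).1, (h had).2.1⟩⟩
      exact_mod_cast card_le_card this
    refine hlc_of hε (hh z Y X x.1 x.2 K (fun _ => 12 * Tt ^ 2 * Y ^ 2) (qz x.1 x.2 fun _ => 15 * Tt ^ 2 * Y ^ 2) (fun _ => D) (by linarith) c5 c9 c6 c8 hYX hK64 hSt (k2.trans hgg3)
      (fun i => ⟨h1, h2⟩) hexx _ hnq) ?_
    refine hcv.trans ?_
    apply mul_le_mul_of_nonneg_right _ (Nat.cast_nonneg _)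
    linarith
  have h3 := (card_le_card hsub).trans ((card_union_le _ _).trans (Nat.add_le_add_left (card_union_le _ _) _))
  have h4 : ((((pairs Tt).filter fun x => ¬ HLC Y (fun _ : Fin K => 12 * Tt ^ 2 * Y ^ 2) (qz x.1 x.2 fun _ => 15 * Tt ^ 2 * Y ^ 2) ε).card : ℕ) : ℝ) ≤
      (((((Icc 1 Tt ×ˢ Icc 1 Tt).filter fun x : ℕ × ℕ => x.2 ≤ x.1 ∧ ¬ ((((Ioc Y (2 * Y) ×ˢ Ioc Y (2 * Y)).filter fun y : ℕ × ℕ =>
        x.1 * dst y.1 y.2 * (x.1 * (y.1 + y.2) + 2 * x.2) ∈ D).card : ℝ) ≤ (Y : ℝ) ^ 2 / (PW z : ℝ) ^ (2 * (a₀ + 8))))).card : ℕ) : ℝ) +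
      (((((pairs Tt).filter fun x => ¬ GA z K x.1 ≤ g).card : ℕ) : ℝ) + ((((pairs Tt).filter fun x => ∃ p : ℕ, p.Prime ∧ z < p ∧ p ∣ x.1 ∧ p ∣ x.2).card : ℕ) : ℝ)) := by
    exact_mod_cast h3
  have h5 : ε * (Tt : ℝ) ^ 2 ≤ ε * (2 * ((pairs Tt).card : ℝ)) := mul_le_mul_of_nonneg_left hcp hε.le
  have h6 : 0 ≤ ε * ((pairs Tt).card : ℝ) := by positivity
  linarith

/-- all three parts with one constant `C` -/
theorem mainZ (hjg : S_JGZ) (exz : S_EXZ) (cmz : S_CMZ) (trz : S_TRZ) {θ : ℝ} (hθ0 : 0 < θ) (hθ1 : θ ≤ 1) : ∃ C₁ : ℝ, 0 < C₁ ∧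
    (∀ A ε : ℝ, 0 < ε → ∀ᶠ X : ℕ in atTop, ∀ Q : ℕ, (Q : ℝ) ≤ A * Real.log (Real.log X) → PZX θ C₁ X Q ε) ∧
    (∃ c : ℝ, 0 < c ∧ ∀ ε : ℝ, 0 < ε → ∃ᶠ X : ℕ in atTop, ∀ Q : ℕ, (Q : ℝ) ≤ c * (Real.log X / Real.log (Real.log X)) → PZX θ C₁ X Q ε) ∧
    (∃ c C : ℝ, 0 < c ∧ 0 < C ∧ ∀ ε : ℝ, 0 < ε → ∀ᶠ X : ℕ in atTop,
      (∀ (r : ℕ) [NeZero r], 1 < r → (r : ℝ) ≤ Real.exp (Real.log X / Real.log (Real.log X)) → ∀ χ : DirichletCharacter ℂ r, χ.IsPrimitive → χ ^ 2 = 1 →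
        ∀ β : ℝ, χ.LFunction β = 0 → β ≤ 1 - C * (Real.log (Real.log X) / Real.log X)) →
      ∀ Q : ℕ, (Q : ℝ) ≤ c * (Real.log X / Real.log (Real.log X)) → PZX θ C₁ X Q ε) := by
  obtain ⟨C₁, hC₁, h⟩ := sufZ hjg exz cmz trz hθ0 hθ1
  exact ⟨C₁, hC₁, fun A ε hε => case1 zr' Pool.Agent.Q111.SZ.t_PWB Pool.Agent.Q177.SZ.t_SIEG h A ε hε,
    case2 Pool.Agent.Q111.SZ.t_PWB h good', dich zr' Pool.Agent.Q111.SZ.t_PWB h⟩

open Classical in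
/-- the result below the threshold -/
def PZZ (θ : ℝ) (X : ℕ) (ε : ℝ) : Prop := ∀ (Y K T : ℕ), 1 ≤ K → (K : ℝ) ≤ Real.log X / Real.log (Real.log X) → 1 ≤ Y →
  Real.log Y ≤ (1 - θ) * (K * Real.log (Real.log X)) → X ≤ 12 * T ^ 2 * Y ^ 2 ∧ 12 * T ^ 2 * Y ^ 2 ≤ Uz (12 * (K + 1)) * X →
  ((((pairs T).filter fun x => ¬ ((((ATQ (fun _ : Fin K => 12 * T ^ 2 * Y ^ 2) (qz x.1 x.2 fun _ => 15 * T ^ 2 * Y ^ 2)).filter fun s =>
    cntQ Y (qz x.1 x.2 fun _ => 15 * T ^ 2 * Y ^ 2) s ≠ 0).card : ℝ) ≤ ε * (ATQ (fun _ : Fin K => 12 * T ^ 2 * Y ^ 2) (qz x.1 x.2 fun _ => 15 * T ^ 2 * Y ^ 2)).card)).card : ℕ) : ℝ) ≤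
      ε * (pairs T).card

theorem lowZ (trz : S_TRZ) : ∀ θ ε : ℝ, 0 < θ → 0 < ε → ∀ᶠ X : ℕ in atTop, PZZ θ X ε := by
  classical
  intro θ ε hθ hε
  obtain ⟨C, X₀, hC, hmean⟩ := mean_leZ
  obtain ⟨Cv, hCv, hvv⟩ := t_PWC
  obtain ⟨z₀, hgm⟩ := few_GA (1 / 8) (ε / 8) (by norm_num) (by positivity)
  obtain ⟨z₂, hgc⟩ := few_gcd (ε / 8) (by positivity)
  have hT1 : Tendsto (fun X : ℕ => Real.log (X : ℝ)) atTop atTop := Real.tendsto_log_atTop.comp tendsto_natCast_atTop_atTop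
  have hT2 : Tendsto (fun X : ℕ => Real.log (Real.log (X : ℝ))) atTop atTop := Real.tendsto_log_atTop.comp hT1
  have hT3 : ∀ᶠ x : ℝ in atTop, C * (Cv * x) ≤ Real.exp (θ / 2 * x) := by
    have h1 := (isLittleO_pow_exp_pos_mul_atTop 1 (show 0 < θ / 2 by positivity)).def (show 0 < 1 / (C * Cv) by positivity)
    filter_upwards [h1, eventually_ge_atTop 0] with x hx hx0
    rw [Real.norm_eq_abs, Real.norm_eq_abs, abs_of_nonneg (Real.exp_pos _).le, pow_one, abs_of_nonneg hx0, one_div, inv_mul_eq_div, le_div_iff₀ (by positivity)] at hx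
    linarith
  have hT4 : ∀ᶠ x : ℝ in atTop, Real.exp (-(θ / 2 * x)) ≤ ε / 4 := by
    have h1 : Tendsto (fun x : ℝ => Real.exp (-(θ / 2 * x))) atTop (nhds 0) := by
      apply Real.tendsto_exp_neg_atTop_nhds_zero.comp
      exact tendsto_id.const_mul_atTop (by positivity)
    exact h1.eventually_le_const (by positivity)
  filter_upwards [hT2.eventually hT3, hT2.eventually hT4, hT2.eventually_ge_atTop 32768, hT1.eventually_ge_atTop (64 + 2 * (16384 + 64 * z₀ + 64 * z₂ + 256)), eventually_ge_atTop X₀] with X e1 e2 e3 e4 e5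
  intro Y K T hK1 hKL hY1 hY hSc
  set L := Real.log (X : ℝ) with hL
  set l := Real.log L with hl
  have hz₀0 : (0 : ℝ) ≤ z₀ := Nat.cast_nonneg _
  have hz₂0 : (0 : ℝ) ≤ z₂ := Nat.cast_nonneg _
  have hl0 : 0 < l := by linarith
  have hL0 : 0 < L := by linarith
  set z : ℕ := 192 * (K + 1) + z₀ + z₂ + 2 with hz
  have hzr : (z : ℝ) = 192 * (K + 1) + z₀ + z₂ + 2 := by rw [hz]; push_cast; ring
  have hzL : 64 * (z : ℝ) ≤ L := by
    rw [le_div_iff₀ hl0] at hKL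
    have h1 : 32768 * (K : ℝ) ≤ L := by
      have hK0 : (0 : ℝ) ≤ K := Nat.cast_nonneg _
      calc 32768 * (K : ℝ) ≤ l * K := mul_le_mul_of_nonneg_right e3 hK0
        _ = K * l := mul_comm _ _
        _ ≤ L := hKL
    rw [hzr]
    linarith
  have hsub : ((pairs T).filter fun x => ¬ ((((ATQ (fun _ : Fin K => 12 * T ^ 2 * Y ^ 2) (qz x.1 x.2 fun _ => 15 * T ^ 2 * Y ^ 2)).filter fun s =>
      cntQ Y (qz x.1 x.2 fun _ => 15 * T ^ 2 * Y ^ 2) s ≠ 0).card : ℝ) ≤ ε * (ATQ (fun _ : Fin K => 12 * T ^ 2 * Y ^ 2) (qz x.1 x.2 fun _ => 15 * T ^ 2 * Y ^ 2)).card)) ⊆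
      ((pairs T).filter fun x => ¬ GA z K x.1 ≤ 1 / 8) ∪ ((pairs T).filter fun x => ∃ p : ℕ, p.Prime ∧ z < p ∧ p ∣ x.1 ∧ p ∣ x.2) := by
    intro x hx
    rw [mem_filter] at hx
    by_contra hcon
    rw [mem_union, mem_filter, mem_filter, not_or] at hcon
    obtain ⟨k2, k3⟩ := hcon
    have k2 : GA z K x.1 ≤ 1 / 8 := by
      by_contra h
      exact k2 ⟨hx.1, h⟩
    have k3 : ¬ ∃ p : ℕ, p.Prime ∧ z < p ∧ p ∣ x.1 ∧ p ∣ x.2 := fun h => k3 ⟨hx.1, h⟩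
    apply hx.2
    have hSt : SysZ z Y X x.1 x.2 (fun _ : Fin K => 12 * T ^ 2 * Y ^ 2) (qz x.1 x.2 fun _ => 15 * T ^ 2 * Y ^ 2) :=
      sysZ_pairs hx.1 hY1 k3 ⟨hSc.1, hSc.2.trans (Nat.mul_le_mul_right _ (Uz_mono (by omega)))⟩
    exact low_coreZ trz hC hmean hCv hvv hθ hε e5 (by linarith) (by omega) hzL hK1 (by omega) hY1 hl0 hY e1 e2 hSt k2
  have h3 := (card_le_card hsub).trans (card_union_le _ _)
  have h1 : ((((pairs T).filter fun x => ¬ ((((ATQ (fun _ : Fin K => 12 * T ^ 2 * Y ^ 2) (qz x.1 x.2 fun _ => 15 * T ^ 2 * Y ^ 2)).filter fun s =>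
      cntQ Y (qz x.1 x.2 fun _ => 15 * T ^ 2 * Y ^ 2) s ≠ 0).card : ℝ) ≤ ε * (ATQ (fun _ : Fin K => 12 * T ^ 2 * Y ^ 2) (qz x.1 x.2 fun _ => 15 * T ^ 2 * Y ^ 2)).card)).card : ℕ) : ℝ) ≤
      ((((pairs T).filter fun x => ¬ GA z K x.1 ≤ 1 / 8).card : ℕ) : ℝ) + ((((pairs T).filter fun x => ∃ p : ℕ, p.Prime ∧ z < p ∧ p ∣ x.1 ∧ p ∣ x.2).card : ℕ) : ℝ) := by
    exact_mod_cast h3
  have h5 := hgm z K T (by omega) (by omega)
  have h6 := hgc z T (by omega)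
  have hcp := card_pairs T
  have h7 : ε * (T : ℝ) ^ 2 ≤ ε * (2 * ((pairs T).card : ℝ)) := mul_le_mul_of_nonneg_left hcp hε.le
  have h8 : 0 ≤ ε * ((pairs T).card : ℝ) := by positivity
  linarith

end Pool.Agent.Q145.LZ
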